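import Pool.Agent.Lib.MP_acafa7_al.MS.Full2

/-! Conversions of Theorems 1, 2, 3 for metrically systolic groups to standard terms. -/

namespace MSG

open scoped Pointwise

theorem infO_iff {Γ : Type} [Group Γ] (a : Γ) : InfO a ↔ ¬ IsOfFinOrder a := by
  unfold InfO
  rw [isOfFinOrder_iff_zpow_eq_one]
  push Not
  exact ⟨fun h n hn h1 => hn (h n h1), fun h n h1 => by_contra fun hn => h n hn h1⟩

theorem pN_of {Γ : Type} [Group Γ] (h : IsMSGroup Γ) : PN Γ :=
  fun a b hi N hN hg => a_thm1 Γ h a b hi.1 hi.2 N hN hg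

theorem pB_of {Γ : Type} [Group Γ] (h : IsMSGroup Γ) : PB Γ := (a_thm2 Γ h).2

/-- the homomorphism `v ↦ a ^ v 0 * b ^ v 1` -/
def hom2 {Γ : Type} [Group Γ] (a b : Γ) (h : a * b = b * a) :
    Multiplicative (Fin 2 → ℤ) →* Γ where
  toFun v := a ^ (Multiplicative.toAdd v 0) * b ^ (Multiplicative.toAdd v 1)
  map_one' := by simp
  map_mul' v w := by
    have hc : Commute a b := h
    simp only [toAdd_mul, Pi.add_apply, zpow_add]
    have := (hc.zpow_zpow (Multiplicative.toAdd w 0) (Multiplicative.toAdd v 1)).eq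
    simp only [mul_assoc]
    congr 1
    rw [← mul_assoc, this, mul_assoc]

theorem hom2_apply {Γ : Type} [Group Γ] (a b : Γ) (h : a * b = b * a)
    (v : Multiplicative (Fin 2 → ℤ)) :
    hom2 a b h v = a ^ (Multiplicative.toAdd v 0) * b ^ (Multiplicative.toAdd v 1) := rfl

theorem hom2_range {Γ : Type} [Group Γ] (a b : Γ) (h : a * b = b * a) :
    (hom2 a b h).range = Subgroup.closure {a, b} := by
  apply le_antisymm
  · rintro x ⟨v, rfl⟩
    rw [hom2_apply]
    exact mul_mem (zpow_mem (Subgroup.subset_closure (by simp)) _)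
      (zpow_mem (Subgroup.subset_closure (by simp)) _)
  · rw [Subgroup.closure_le]
    rintro x hx
    rcases hx with rfl | hx
    · exact ⟨Multiplicative.ofAdd ![1, 0], by simp [hom2_apply]⟩
    · rw [Set.mem_singleton_iff] at hx
      subst hx
      exact ⟨Multiplicative.ofAdd ![0, 1], by simp [hom2_apply]⟩

theorem equiv2 {Γ : Type} [Group Γ] (a b : Γ) (h : Ind a b) :
    Nonempty (Subgroup.closure {a, b} ≃* Multiplicative (Fin 2 → ℤ)) := by
  have hinj : Function.Injective (hom2 a b h.1) := by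
    rw [injective_iff_map_eq_one]
    intro v hv
    rw [hom2_apply] at hv
    obtain ⟨h0, h1⟩ := h.2 _ _ hv
    apply Multiplicative.toAdd.injective
    funext i
    fin_cases i
    · exact h0
    · exact h1
  rw [← hom2_range a b h.1]
  exact ⟨(MonoidHom.ofInjective hinj).symm⟩

/-- the homomorphism `v ↦ a ^ v 0` -/
def hom1 {Γ : Type} [Group Γ] (a : Γ) : Multiplicative (Fin 1 → ℤ) →* Γ where
  toFun v := a ^ (Multiplicative.toAdd v 0)
  map_one' := by simp
  map_mul' v w := by simp [zpow_add]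

theorem equiv1 {Γ : Type} [Group Γ] (a : Γ) (h : InfO a) :
    Nonempty (Subgroup.zpowers a ≃* Multiplicative (Fin 1 → ℤ)) := by
  have hinj : Function.Injective (hom1 a) := by
    rw [injective_iff_map_eq_one]
    intro v hv
    have h0 := h _ hv
    apply Multiplicative.toAdd.injective
    funext i
    fin_cases i
    exact h0
  have hr : (hom1 a).range = Subgroup.zpowers a := by
    ext x
    rw [MonoidHom.mem_range, Subgroup.mem_zpowers_iff]
    constructor
    · rintro ⟨v, rfl⟩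
      exact ⟨_, rfl⟩
    · rintro ⟨k, rfl⟩
      exact ⟨Multiplicative.ofAdd fun _ => k, rfl⟩
  rw [← hr]
  exact ⟨(MonoidHom.ofInjective hinj).symm⟩

theorem vz1_out {Γ : Type} [Group Γ] {H : Subgroup Γ} (h : VZ1 H) :
    ∃ A : Subgroup Γ, A ≤ H ∧ A.relIndex H ≠ 0 ∧ A.FG ∧
      Nonempty (A ≃* Multiplicative (Fin 1 → ℤ)) := by
  obtain ⟨a, ha, hi, hr⟩ := h
  refine ⟨_, ?_, hr, ?_, equiv1 a hi⟩
  · rwa [Subgroup.zpowers_le]
  · rw [Subgroup.zpowers_eq_closure]
    exact ⟨{a}, by simp⟩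

theorem vz2_out {Γ : Type} [Group Γ] {H : Subgroup Γ} (h : VZ2 H) :
    ∃ A : Subgroup Γ, A ≤ H ∧ A.relIndex H ≠ 0 ∧ A.FG ∧
      Nonempty (A ≃* Multiplicative (Fin 2 → ℤ)) := by
  obtain ⟨a, ha, b, hb, hi, hr⟩ := h
  refine ⟨_, ?_, hr, ?_, equiv2 a b hi⟩
  · rw [Subgroup.closure_le]
    rintro x hx
    rcases hx with rfl | hx
    · exact ha
    · rw [Set.mem_singleton_iff] at hx
      subst hx
      exact hb
  · classical
    exact ⟨{a, b}, by simp⟩

theorem fin_out {Γ : Type} [Group Γ] {H : Subgroup Γ} (h : (H : Set Γ).Finite) :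
    ∃ A : Subgroup Γ, A ≤ H ∧ A.relIndex H ≠ 0 ∧
      Nonempty (A ≃* Multiplicative (Fin 0 → ℤ)) := by
  refine ⟨⊥, bot_le, ?_, ⟨{ toFun := fun _ => 1, invFun := fun _ => 1, left_inv := ?_, right_inv := ?_, map_mul' := ?_ }⟩⟩
  · rw [Subgroup.relIndex_bot_left]
    have : Finite H := h
    exact Nat.card_pos.ne'
  · intro x
    exact Subsingleton.elim _ _
  · intro x
    exact Subsingleton.elim _ _
  · intro x y
    simp

/-- an overgroup of finite index of a finitely generated group is finitely generated -/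
theorem fg_of_fi {Γ : Type} [Group Γ] {K H : Subgroup Γ} (hK : K ≤ H) (hf : K.FG)
    (hi : K.relIndex H ≠ 0) : H.FG := by
  classical
  obtain ⟨S, hS⟩ := hf
  have hfin : Finite (H ⧸ K.subgroupOf H) := by
    apply Nat.finite_of_card_ne_zero
    exact hi
  let f : (H ⧸ K.subgroupOf H) → Γ := fun q => ((Quotient.out q : H) : Γ)
  have hT : (Set.range f).Finite := Set.finite_range f
  refine ⟨S ∪ hT.toFinset, ?_⟩
  apply le_antisymm
  · rw [Subgroup.closure_le]
    intro x hx
    simp only [Finset.coe_union, Set.Finite.coe_toFinset, Set.mem_union] at hx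
    rcases hx with hx | ⟨q, rfl⟩
    · apply hK
      rw [← hS]
      exact Subgroup.subset_closure hx
    · exact (Quotient.out q : H).2
  · intro h hh
    have h1 : f (QuotientGroup.mk (⟨h, hh⟩ : H)) ∈
        Subgroup.closure ((S ∪ hT.toFinset : Finset Γ) : Set Γ) := by
      apply Subgroup.subset_closure
      simp only [Finset.coe_union, Set.Finite.coe_toFinset, Set.mem_union]
      exact Or.inr ⟨_, rfl⟩
    have h2 : (f (QuotientGroup.mk (⟨h, hh⟩ : H)))⁻¹ * h ∈ K := by
      have := QuotientGroup.out_eq' (QuotientGroup.mk (s := K.subgroupOf H) (⟨h, hh⟩ : H))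
      rw [QuotientGroup.eq] at this
      exact this
    have h3 : K ≤ Subgroup.closure ((S ∪ hT.toFinset : Finset Γ) : Set Γ) :=
      hS.ge.trans (Subgroup.closure_mono (by simp))
    have h4 := mul_mem h1 (h3 h2)
    rwa [mul_inv_cancel_left] at h4

theorem solvable_out {Γ : Type} [Group Γ] (hΓ : IsMSGroup Γ) (H : Subgroup Γ)
    (hs : Group.IsSolvable H)
    (ht : ∀ F : Subgroup Γ, F ≤ H → (∀ x ∈ F, IsOfFinOrder x) → (F : Set Γ).Finite) :
    ∃ r : ℕ, r ≤ 2 ∧ ∃ A : Subgroup Γ, A ≤ H ∧ A.relIndex H ≠ 0 ∧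
      Nonempty (A ≃* Multiplicative (Fin r → ℤ)) := by
  have hT : TorF H := by
    intro F hF hx
    apply ht F hF
    intro x hxF
    rw [isOfFinOrder_iff_pow_eq_one]
    exact hx x hxF
  rcases a_g3 Γ (pN_of hΓ) (pB_of hΓ) H hs hT with h | h | h
  · exact ⟨0, by omega, fin_out h⟩
  · obtain ⟨A, h1, h2, -, h3⟩ := vz1_out h
    exact ⟨1, by omega, A, h1, h2, h3⟩
  · obtain ⟨A, h1, h2, -, h3⟩ := vz2_out h
    exact ⟨2, by omega, A, h1, h2, h3⟩

theorem abelian_out {Γ : Type} [Group Γ] (hΓ : IsMSGroup Γ) (A : Subgroup Γ)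
    (hA : ∀ x ∈ A, ∀ y ∈ A, x * y = y * x) (hi : ∃ a ∈ A, ¬ IsOfFinOrder a) :
    A.FG ∧ ∃ r : ℕ, 1 ≤ r ∧ r ≤ 2 ∧ ∃ B : Subgroup Γ, B ≤ A ∧ B.relIndex A ≠ 0 ∧
      Nonempty (B ≃* Multiplicative (Fin r → ℤ)) := by
  obtain ⟨a, ha, hai⟩ := hi
  rcases a_g1 Γ (pN_of hΓ) (pB_of hΓ) A hA ⟨a, ha, (infO_iff a).2 hai⟩ with h | h
  · obtain ⟨B, h1, h2, h3, h4⟩ := vz1_out h
    exact ⟨fg_of_fi h1 h3 h2, 1, le_refl _, by omega, B, h1, h2, h4⟩
  · obtain ⟨B, h1, h2, h3, h4⟩ := vz2_out h
    exact ⟨fg_of_fi h1 h3 h2, 2, by omega, le_refl _, B, h1, h2, h4⟩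

theorem comm_out {Γ : Type} [Group Γ] (hΓ : IsMSGroup Γ) (A : Subgroup Γ)
    (hA : Nonempty (A ≃* Multiplicative (Fin 2 → ℤ))) :
    A.relIndex (Subgroup.Commensurable.commensurator A) ≠ 0 := by
  obtain ⟨e⟩ := hA
  let u : Multiplicative (Fin 2 → ℤ) := Multiplicative.ofAdd ![1, 0]
  let v : Multiplicative (Fin 2 → ℤ) := Multiplicative.ofAdd ![0, 1]
  have huv : ∀ i j : ℤ, u ^ i * v ^ j = Multiplicative.ofAdd ![i, j] := by
    intro i j
    apply Multiplicative.toAdd.injective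
    funext k
    fin_cases k <;> simp [u, v]
  set a : Γ := ((e.symm u : A) : Γ) with ha
  set b : Γ := ((e.symm v : A) : Γ) with hb
  have hab : ∀ i j : ℤ, a ^ i * b ^ j = ((e.symm (Multiplicative.ofAdd ![i, j]) : A) : Γ) := by
    intro i j
    rw [← huv, map_mul, map_zpow, map_zpow, Subgroup.coe_mul, Subgroup.coe_zpow,
      Subgroup.coe_zpow]
  have hcomm : a * b = b * a := by
    have h1 : (e.symm u : A) * e.symm v = e.symm v * e.symm u := by
      apply e.injective
      simp only [map_mul, MulEquiv.apply_symm_apply]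
      exact mul_comm u v
    exact congrArg (fun z : A => (z : Γ)) h1
  have hind : ∀ i j : ℤ, a ^ i * b ^ j = 1 → i = 0 ∧ j = 0 := by
    intro i j h
    rw [hab] at h
    have h1 : (e.symm (Multiplicative.ofAdd ![i, j]) : A) = 1 := Subtype.ext h
    rw [map_eq_one_iff _ e.symm.injective] at h1
    have h2 : (![i, j] : Fin 2 → ℤ) = 0 := Multiplicative.ofAdd.injective h1
    exact ⟨by simpa using congrFun h2 0, by simpa using congrFun h2 1⟩
  have hcl : Subgroup.closure {a, b} = A := by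
    apply le_antisymm
    · rw [Subgroup.closure_le]
      rintro x hx
      rcases hx with rfl | hx
      · exact (e.symm u : A).2
      · rw [Set.mem_singleton_iff] at hx
        subst hx
        exact (e.symm v : A).2
    · intro x hx
      have h1 : (⟨x, hx⟩ : A) = e.symm (Multiplicative.ofAdd
          ![Multiplicative.toAdd (e ⟨x, hx⟩) 0, Multiplicative.toAdd (e ⟨x, hx⟩) 1]) := by
        rw [MulEquiv.eq_symm_apply]
        apply Multiplicative.toAdd.injective
        funext k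
        fin_cases k <;> simp
      have h2 : x = a ^ (Multiplicative.toAdd (e ⟨x, hx⟩) 0) *
          b ^ (Multiplicative.toAdd (e ⟨x, hx⟩) 1) := by
        rw [hab, ← h1]
      rw [h2]
      exact mul_mem (zpow_mem (Subgroup.subset_closure (by simp)) _)
        (zpow_mem (Subgroup.subset_closure (by simp)) _)
  have hle : A ≤ Subgroup.Commensurable.commensurator A := by
    intro x hx
    rw [Subgroup.Commensurable.commensurator_mem_iff]
    have : (ConjAct.toConjAct x • A : Subgroup Γ) = A := by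
      apply le_antisymm
      · rintro y hy
        obtain ⟨z, hz, rfl⟩ := hy
        exact mul_mem (mul_mem hx hz) (inv_mem hx)
      · intro y hy
        refine ⟨x⁻¹ * y * x, mul_mem (mul_mem (inv_mem hx) hy) hx, ?_⟩
        change ConjAct.toConjAct x • (x⁻¹ * y * x) = y
        rw [ConjAct.toConjAct_smul]
        group
    rw [this]
  have hkey : ∀ g ∈ Subgroup.Commensurable.commensurator A, ∀ x ∈ A, ∃ m : ℕ, 1 ≤ m ∧
      g⁻¹ * x ^ m * g ∈ A := by
    intro g hg x hx
    rw [Subgroup.Commensurable.commensurator_mem_iff] at hg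
    obtain ⟨n, hn, hn1, hn2⟩ := Subgroup.exists_pow_mem_of_relIndex_ne_zero hg.1 hx
    refine ⟨n, hn, ?_⟩
    obtain ⟨z, hz, hz2⟩ := hn2.1
    have : z = g⁻¹ * x ^ n * g := by
      have h3 : g * z * g⁻¹ = x ^ n := hz2
      rw [← h3]
      group
    rwa [← this]
  have := a_thm1 Γ hΓ a b hcomm hind (Subgroup.Commensurable.commensurator A)
    (by rw [hcl]; exact hle) ?_
  · rwa [hcl] at this
  · intro g hg
    rw [hcl]
    obtain ⟨m, hm, hm2⟩ := hkey g hg a (by rw [← hcl]; exact Subgroup.subset_closure (by simp))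
    obtain ⟨n, hn, hn2⟩ := hkey g hg b (by rw [← hcl]; exact Subgroup.subset_closure (by simp))
    refine ⟨m * n, Nat.mul_pos hm hn, ?_, ?_⟩
    · have : g⁻¹ * a ^ (m * n) * g = (g⁻¹ * a ^ m * g) ^ n := by
        have := conj_pow (i := n) (a := g⁻¹) (b := a ^ m)
        simp only [inv_inv] at this
        rw [this, pow_mul]
      rw [this]
      exact pow_mem hm2 _
    · have : g⁻¹ * b ^ (m * n) * g = (g⁻¹ * b ^ n * g) ^ m := by
        have := conj_pow (i := m) (a := g⁻¹) (b := b ^ n)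
        simp only [inv_inv] at this
        rw [this, mul_comm m n, pow_mul]
      rw [this]
      exact pow_mem hn2 _

theorem cent_out {Γ : Type} [Group Γ] (hΓ : IsMSGroup Γ) (a : Γ) (ha : ¬ IsOfFinOrder a) :
    (Subgroup.centralizer {a}).FG ∧ ∃ N : ℕ, ∀ H : Subgroup Γ, a ∈ H →
      H ≤ Subgroup.centralizer {a} → (Subgroup.zpowers a).relIndex H ≠ 0 →
      (Subgroup.zpowers a).relIndex H ≤ N := by
  have hi := (infO_iff a).2 ha
  refine ⟨(a_thm2 Γ hΓ).1 a hi, ?_⟩
  obtain ⟨N, hN⟩ := (a_thm2 Γ hΓ).2 a hi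
  refine ⟨N, fun H haH hH => hN H haH ?_⟩
  intro h hh
  have := hH hh
  rw [Subgroup.mem_centralizer_singleton_iff] at this
  exact this

end MSG
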