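import Pool.Agent.Lib.MP_acafa7_al.MS.Maps

/-! Definitions for stage 2: periodic annuli, metric annuli (Paper.md sections 8, 9). -/

namespace MSG

open Classical

section

variable {V D D' : Type} {a : Equiv.Perm V}

/-- the big faces of an annulus -/
def annB (P Q : List D) : Set D := {d | d ∈ P ∨ d ∈ Q}

/-- Periodic annulus: planar, two big faces `P`, `Q` of holonomy `ε`, `-ε`. -/
structure IsAnn (M : LMap V D a) (P Q : List D) (ε : ℤ) : Prop where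
  planar : M.Planar
  faceP : M.IsFace P
  faceQ : M.IsFace Q
  disj : ∀ d ∈ P, d ∉ Q
  off : M.Off (annB P Q)
  holP : M.hol P = ε
  holQ : M.hol Q = -ε
  eps : ε = 1 ∨ ε = -1

/-- `P'` in `M'` carries the same labels as `P` in `M`. -/
def SameF (M : LMap V D a) (P : List D) (M' : LMap V D' a) (P' : List D') : Prop :=
  P.map M.f = P'.map M'.f ∧ P.map M.t = P'.map M'.t ∧ P.map M.h = P'.map M'.h

/-- joined by an edge path all of whose vertices are moved by at most `K` -/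
def CY (X : Cx V) (a : Equiv.Perm V) (K : ℕ) (x y : V) : Prop :=
  ∃ l, IsW X.G x y l ∧ ∀ z ∈ l, X.G.dist z (a z) ≤ K

/-- the function `d(x, .)` -/
noncomputable def kap (X : Cx V) (x : V) : V → ℝ := fun z => (X.G.dist x z : ℝ)

/-- action of `a ^ n` on functions -/
def sh (a : Equiv.Perm V) (n : ℤ) (e : V → ℝ) : V → ℝ := fun z => e ((a ^ (-n)) z)

/-- within 1 of the distance function of a vertex -/
def Near (X : Cx V) (e : V → ℝ) : Prop := ∃ x, ∀ z, |e z - (X.G.dist x z : ℝ)| ≤ 1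

/-- the point at distance `s` from `A` on the segment `A B` -/
noncomputable def seg (A B : ℂ) (s : ℝ) : ℂ := A + ((s / dist A B : ℝ) : ℂ) * (B - A)

/-- The functions `e1`, `e2`, `e3` on the sides `AB`, `BZ`, `ZA` of a Euclidean triangle with sides
`l1`, `l2`, `l3` extend to a `C`-Lipschitz near function on the triangle. -/
def Fil (X : Cx V) (C l1 l2 l3 : ℝ) (e1 e2 e3 : ℝ → V → ℝ) : Prop :=
  ∃ (A B Z : ℂ) (F : ℂ → V → ℝ), dist A B = l1 ∧ dist B Z = l2 ∧ dist Z A = l3 ∧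
    (∀ p ∈ convexHull ℝ {A, B, Z}, ∀ q ∈ convexHull ℝ {A, B, Z}, ∀ z,
      |F p z - F q z| ≤ C * dist p q) ∧
    (∀ p ∈ convexHull ℝ {A, B, Z}, Near X (F p)) ∧
    (∀ s, 0 ≤ s → s ≤ l1 → F (seg A B s) = e1 s) ∧
    (∀ s, 0 ≤ s → s ≤ l2 → F (seg B Z s) = e2 s) ∧
    (∀ s, 0 ≤ s → s ≤ l3 → F (seg Z A s) = e3 s)

/-- Nonpositively curved metric annulus. -/
structure IsMA [Fintype D] (X : Cx V) (C : ℝ) (M : LMap V D a) (P Q : List D) (ε : ℤ)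
    (ℓ : D → ℝ) (e : D → ℝ → V → ℝ) : Prop where
  ann : IsAnn M P Q ε
  lenok : M.LenOK ℓ (annB P Q)
  e0 : ∀ d, e d 0 = kap X (M.f d)
  eι : ∀ d s, 0 ≤ s → s ≤ ℓ d → sh a (M.γ d) (e (M.ι d) s) = e d (ℓ d - s)
  elip : ∀ d s s', 0 ≤ s → s ≤ ℓ d → 0 ≤ s' → s' ≤ ℓ d → ∀ z, |e d s z - e d s' z| ≤ C * |s - s'|
  fil : ∀ d, d ∉ annB P Q → Fil X C (ℓ d) (ℓ (M.φ d)) (ℓ (M.φ (M.φ d))) (e d)
    (fun s => sh a (M.h d) (e (M.φ d) s))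
    (fun s => sh a (M.h d + M.h (M.φ d)) (e (M.φ (M.φ d)) s))
  npc : ∀ d, (∀ b, M.SameV d b → b ∉ annB P Q) → M.curv ℓ (annB P Q) d ≤ 0

end

/-- bundled metric annulus -/
structure MA {V : Type} (X : Cx V) (a : Equiv.Perm V) (C : ℝ) where
  D : Type
  fin : Fintype D
  M : LMap V D a
  P : List D
  Q : List D
  ε : ℤ
  ℓ : D → ℝ
  e : D → ℝ → V → ℝ
  ok : IsMA X C M P Q ε ℓ e

attribute [instance] MA.fin

namespace MA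

variable {V : Type} {X : Cx V} {a : Equiv.Perm V} {C : ℝ} (𝒜 : MA X a C)

/-- number of triangle darts -/
def nt : ℕ := Fintype.card 𝒜.D - (𝒜.P.length + 𝒜.Q.length)

def nb : ℕ := 𝒜.P.length + 𝒜.Q.length

/-- both boundary lengths are at most `K` -/
def Le (K : ℝ) : Prop := (𝒜.P.map 𝒜.ℓ).sum ≤ K ∧ (𝒜.Q.map 𝒜.ℓ).sum ≤ K

def NoTouch : Prop := ∀ p ∈ 𝒜.P, ∀ q ∈ 𝒜.Q, ¬ 𝒜.M.SameV p q

/-- all labels of `P` and `Q` are connected in `Y_K` -/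
def Good (K : ℕ) : Prop := ∀ p ∈ 𝒜.P, ∀ q ∈ 𝒜.Q, CY X a K (𝒜.M.f p) (𝒜.M.f q)

/-- `o` is a dart of `P`, the only big dart at its vertex, and the wedge there is at most `π`. -/
def Marked (o : 𝒜.D) : Prop :=
  o ∈ 𝒜.P ∧ (∀ b ∈ annB 𝒜.P 𝒜.Q, 𝒜.M.SameV o b → b = o) ∧ 0 ≤ 𝒜.M.curv 𝒜.ℓ (annB 𝒜.P 𝒜.Q) o

/-- a smaller annulus whose goodness implies that of `𝒜` -/
def Smaller (K : ℝ) (K' : ℕ) : Prop :=
  ∃ 𝒜' : MA X a C, 𝒜'.Le K ∧ (𝒜'.nt < 𝒜.nt ∨ (𝒜'.nt = 𝒜.nt ∧ 𝒜'.nb < 𝒜.nb)) ∧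
    (𝒜'.Good K' → 𝒜.Good K')

/-- an annulus with the same boundary and a marked vertex of smaller degree -/
def SmallerDeg (o : 𝒜.D) : Prop :=
  ∃ (𝒜' : MA X a C) (o' : 𝒜'.D), 𝒜'.Marked o' ∧ 𝒜'.M.deg o' < 𝒜.M.deg o ∧
    𝒜'.nt = 𝒜.nt ∧ 𝒜'.nb = 𝒜.nb ∧
    𝒜'.P.map 𝒜'.M.f = 𝒜.P.map 𝒜.M.f ∧ 𝒜'.Q.map 𝒜'.M.f = 𝒜.Q.map 𝒜.M.f ∧
    𝒜'.P.map 𝒜'.ℓ = 𝒜.P.map 𝒜.ℓ ∧ 𝒜'.Q.map 𝒜'.ℓ = 𝒜.Q.map 𝒜.ℓ

/-- The fan at the marked vertex: spokes `s 0 = ι i, .., s k = o` where `φ i = o`. -/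
structure Fan (o : 𝒜.D) (k : ℕ) (s : ℕ → 𝒜.D) : Prop where
  zero : 𝒜.M.φ (𝒜.M.ι (s 0)) = o
  last : s k = o
  next : ∀ j, j < k → s (j + 1) = 𝒜.M.ι (𝒜.M.φ (𝒜.M.φ (s j)))
  tri : ∀ j, j < k → s j ∉ annB 𝒜.P 𝒜.Q
  inj : ∀ j j', j ≤ k → j' ≤ k → s j = s j' → j = j'
  cls : ∀ d, 𝒜.M.SameV o d ↔ ∃ j, j ≤ k ∧ s j = d
  curv : 𝒜.M.curv 𝒜.ℓ (annB 𝒜.P 𝒜.Q) o =
    Real.pi - ∑ j ∈ Finset.range k, 𝒜.M.th 𝒜.ℓ (s j)

end MA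

end MSG
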