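import Pool.Agent.Lib.MP_acafa7_al.MS.Iface1
import Pool.Agent.Lib.MP_acafa7_al.MS.Annuli

/-! Statements of the modules of stage 2, sections 10 and 11 (group theory, bottleneck property). -/

namespace MSG

open Classical

/-! ### Section 11: group theory -/

/-- infinite order -/
def InfO {Γ : Type} [Group Γ] (a : Γ) : Prop := ∀ n : ℤ, a ^ n = 1 → n = 0

/-- independent commuting elements -/
def Ind {Γ : Type} [Group Γ] (a b : Γ) : Prop :=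
  a * b = b * a ∧ ∀ i j : ℤ, a ^ i * b ^ j = 1 → i = 0 ∧ j = 0

/-- virtually `Z` -/
def VZ1 {Γ : Type} [Group Γ] (H : Subgroup Γ) : Prop :=
  ∃ a ∈ H, InfO a ∧ (Subgroup.zpowers a).relIndex H ≠ 0

/-- virtually `Z^2` -/
def VZ2 {Γ : Type} [Group Γ] (H : Subgroup Γ) : Prop :=
  ∃ a ∈ H, ∃ b ∈ H, Ind a b ∧ (Subgroup.closure {a, b}).relIndex H ≠ 0

/-- `Z^2`-subgroups have finite index in every subgroup of their commensurator -/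
def PN (Γ : Type) [Group Γ] : Prop :=
  ∀ (a b : Γ), Ind a b → ∀ N : Subgroup Γ, Subgroup.closure {a, b} ≤ N →
    (∀ g ∈ N, ∃ m : ℕ, 1 ≤ m ∧ g⁻¹ * a ^ m * g ∈ Subgroup.closure {a, b} ∧
        g⁻¹ * b ^ m * g ∈ Subgroup.closure {a, b}) →
    (Subgroup.closure {a, b}).relIndex N ≠ 0

/-- bounded finite subgroups of `C(a)/⟨a⟩` -/
def PB (Γ : Type) [Group Γ] : Prop :=
  ∀ a : Γ, InfO a → ∃ N : ℕ, ∀ H : Subgroup Γ, a ∈ H → (∀ h ∈ H, h * a = a * h) →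
    (Subgroup.zpowers a).relIndex H ≠ 0 → (Subgroup.zpowers a).relIndex H ≤ N

/-- all finite subgroups have at most `N` elements -/
def FinB (S : Type) [Group S] (N : ℕ) : Prop :=
  ∀ F : Subgroup S, (F : Set S).Finite → Nat.card F ≤ N

/-- infinite cyclic subgroups have finite index in their normalizers -/
def CycN (S : Type) [Group S] : Prop :=
  ∀ s : S, InfO s → ∀ K : Subgroup S, s ∈ K → (∀ k ∈ K, k * s * k⁻¹ ∈ Subgroup.zpowers s) →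
    (Subgroup.zpowers s).relIndex K ≠ 0

/-- torsion subgroups of `H` are finite -/
def TorF {Γ : Type} [Group Γ] (H : Subgroup Γ) : Prop :=
  ∀ F : Subgroup Γ, F ≤ H → (∀ x ∈ F, ∃ n : ℕ, 0 < n ∧ x ^ n = 1) → (F : Set Γ).Finite

/-- 11.1 -/
def G1Statement : Prop :=
  ∀ (Γ : Type) [Group Γ], PN Γ → PB Γ → ∀ A : Subgroup Γ, (∀ x ∈ A, ∀ y ∈ A, x * y = y * x) →
    (∃ a ∈ A, InfO a) → VZ1 A ∨ VZ2 A

/-- 11.2, `B` not torsion -/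
def G2AStatement : Prop :=
  ∀ (S : Type) [Group S], CycN S → ∀ B : Subgroup S, B.Normal →
    (∀ x ∈ B, ∀ y ∈ B, x * y = y * x) → ∀ b ∈ B, InfO b →
    ∃ s : S, InfO s ∧ (Subgroup.zpowers s).index ≠ 0

/-- 11.2, `B` torsion -/
def G2BStatement : Prop :=
  ∀ (S : Type) [Group S] (N : ℕ), FinB S N → ∀ B : Subgroup S,
    (∀ x ∈ B, ∀ y ∈ B, x * y = y * x) → (∀ x ∈ B, ∃ n : ℕ, 0 < n ∧ x ^ n = 1) →
    (B : Set S).Finite

/-- 11.2, quotients by finite normal subgroups -/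
def G2CStatement : Prop :=
  ∀ (S : Type) [Group S] (N : ℕ) (B : Subgroup S) [B.Normal], (B : Set S).Finite → FinB S N →
    CycN S → FinB (S ⧸ B) N ∧ CycN (S ⧸ B)

/-- 11.2 -/
def G2Statement : Prop :=
  ∀ (S : Type) [Group S] (N : ℕ), Group.IsSolvable S → FinB S N → CycN S →
    Finite S ∨ ∃ s : S, InfO s ∧ (Subgroup.zpowers s).index ≠ 0

/-- solvable groups centralizing an element of infinite order -/
def GSStatement : Prop :=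
  ∀ (Γ : Type) [Group Γ], PN Γ → PB Γ → ∀ (H : Subgroup Γ) (a : Γ), Group.IsSolvable H → a ∈ H →
    InfO a → (∀ x ∈ H, x * a = a * x) → VZ1 H ∨ VZ2 H

def G3AStatement : Prop :=
  ∀ (Γ : Type) [Group Γ], PN Γ → ∀ H K : Subgroup Γ, K ≤ H →
    (∀ h ∈ H, ∀ k ∈ K, h * k * h⁻¹ ∈ K) → VZ2 K → VZ2 H

def G3BStatement : Prop :=
  ∀ (Γ : Type) [Group Γ], PN Γ → PB Γ → ∀ H K : Subgroup Γ, Group.IsSolvable H → K ≤ H →
    (∀ h ∈ H, ∀ k ∈ K, h * k * h⁻¹ ∈ K) → VZ1 K → VZ1 H ∨ VZ2 H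

def G3CStatement : Prop :=
  ∀ (Γ : Type) [Group Γ], PN Γ → PB Γ → ∀ H K : Subgroup Γ, Group.IsSolvable H → K ≤ H →
    (∀ h ∈ H, ∀ k ∈ K, h * k * h⁻¹ ∈ K) → (K : Set Γ).Finite →
    (∀ x ∈ H, ∀ y ∈ H, x * y * x⁻¹ * y⁻¹ ∈ K) → (∃ a ∈ H, InfO a) → VZ1 H ∨ VZ2 H

/-- 11.3 -/
def G3Statement : Prop :=
  ∀ (Γ : Type) [Group Γ], PN Γ → PB Γ → ∀ H : Subgroup Γ, Group.IsSolvable H → TorF H →
    (H : Set Γ).Finite ∨ VZ1 H ∨ VZ2 H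

/-! ### Section 10 -/

/-- bottleneck property of a graph -/
def Bott {W : Type} (H : SimpleGraph W) (Δ : ℕ) : Prop :=
  ∀ x y m, H.dist x m + H.dist m y = H.dist x y → ∀ q : H.Walk x y, ∃ z ∈ q.support,
    H.dist m z ≤ Δ

/-- 10.2: quasi-centre of a bounded orbit -/
def QCStatement : Prop :=
  ∀ (W : Type) (H : SimpleGraph W), H.Connected → ∀ Δ : ℕ, Bott H Δ →
    ∀ (Λ : Type) [Group Λ] [MulAction Λ W], (∀ (g : Λ) x y, H.Adj (g • x) (g • y) ↔ H.Adj x y) →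
    ∀ (x₀ : W) (R : ℕ), (∀ g : Λ, H.dist x₀ (g • x₀) ≤ R) → ∃ c, ∀ g : Λ,
      H.dist c (g • c) ≤ 4 * Δ + 1

/-- closed walks of length at most `L` are null-homotopic in balls of radius `R` -/
def RadStatement : Prop :=
  ∀ (V : Type) (X : Cx V) (Γ : Type) [Group Γ] [MulAction Γ V], X.IsMS → X.IsGeom Γ →
    ∀ L : ℕ, ∃ R : ℕ, L ≤ R ∧ ∀ (x : V) (l : List V), IsW X.G x x l → l.length ≤ L + 1 →
      Nul X.G {z | X.G.dist x z ≤ R} l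

/-- Theorem 8.3 -/
def ConnStatement : Prop :=
  ∀ (V : Type) (X : Cx V) (Γ : Type) [Group Γ] [MulAction Γ V], X.IsMS → X.IsGeom Γ →
    ∀ g : Γ, InfO g → ∀ K : ℕ, ∃ K' : ℕ, ∀ x y : V, X.G.dist x (g • x) ≤ K →
      X.G.dist y (g • y) ≤ K → CY X (MulAction.toPerm g) K' x y

/-- `Ω` is a connected `C(g)`-cofinite set of points moved at most `K'` by `g`. -/
structure IsOm {V : Type} (X : Cx V) {Γ : Type} [Group Γ] [MulAction Γ V] (g : Γ) (K' : ℕ)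
    (Ω : Set V) : Prop where
  nonempty : Ω.Nonempty
  small : ∀ x ∈ Ω, X.G.dist x (g • x) ≤ K'
  conn : ∀ x ∈ Ω, ∀ y ∈ Ω, ∃ l, IsW X.G x y l ∧ ∀ z ∈ l, z ∈ Ω
  inv : ∀ c : Γ, c * g = g * c → ∀ x ∈ Ω, c • x ∈ Ω
  cof : ∃ F : Finset V, (∀ x ∈ F, x ∈ Ω) ∧ ∀ x ∈ Ω, ∃ c : Γ, c * g = g * c ∧ ∃ y ∈ F, c • y = x

/-- existence of `Ω` -/
def OmStatement : Prop :=
  ∀ (V : Type) (X : Cx V) (Γ : Type) [Group Γ] [MulAction Γ V], X.IsMS → X.IsGeom Γ →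
    ∀ g : Γ, InfO g → ∃ (K' : ℕ) (Ω : Set V), IsOm X g K' Ω

/-- `C(g)` is finitely generated -/
def CFGStatement : Prop :=
  ∀ (V : Type) (X : Cx V) (Γ : Type) [Group Γ] [MulAction Γ V], X.IsGeom Γ → X.G.Connected →
    ∀ (g : Γ) (K' : ℕ) (Ω : Set V), IsOm X g K' Ω → (Subgroup.centralizer {g}).FG

/-- equivariant side walks -/
def SideStatement : Prop :=
  ∀ (V : Type) (X : Cx V) (a : Equiv.Perm V), FreeAut X a → X.G.Connected →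
    ∃ s : V → List V, (∀ x, IsW X.G x (a x) (s x)) ∧ (∀ x, s (a x) = (s x).map a) ∧
      ∀ x, (s x).length = X.G.dist x (a x) + 1

/-- sweeping a walk by squares -/
def SweepStatement : Prop :=
  ∀ (V : Type) (X : Cx V) (a : Equiv.Perm V), FreeAut X a → X.G.Connected →
    ∀ (K R : ℕ) (s : V → List V), (∀ x, IsW X.G x (a x) (s x)) → (∀ x, s (a x) = (s x).map a) →
    2 * K + 2 ≤ R → (∀ (x : V) (l : List V), IsW X.G x x l → l.length ≤ 2 * K + 3 →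
      Nul X.G {z | X.G.dist x z ≤ R} l) →
    (∀ (x y : V) (l : List V), IsW X.G x y l → (∀ z ∈ l, (s z).length ≤ K + 1) →
      ∀ S : Set V, (∀ z ∈ l, ∀ z', X.G.dist z z' ≤ R → z' ∈ S) → Nul X.G S (sq a l (s x) (s y))) ∧
    (∀ (x : V) (n : ℤ), (s x).length ≤ K + 1 →
      ∃ l, IsW X.G x ((a ^ n) x) l ∧ (∀ z ∈ l, ∃ i : ℤ, X.G.dist ((a ^ i) x) z ≤ K) ∧
        ∀ S : Set V, (∀ (i : ℤ) z, |i| ≤ |n| + 1 → X.G.dist ((a ^ i) x) z ≤ R → z ∈ S) →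
        Nul X.G S (sq a l (s x) (s ((a ^ n) x))))

/-- the graph `Ω / T` (as a graph on `Ω` in which the elements of a `T`-orbit are adjacent) -/
def OmG {V : Type} (X : Cx V) {Γ : Type} [Group Γ] [MulAction Γ V] (g : Γ) (Ω : Set V) :
    SimpleGraph Ω where
  Adj x y := x ≠ y ∧ ((∃ n : ℤ, Nr X.G x.1 (g ^ n • y.1)) ∨ ∃ n : ℤ, Nr X.G y.1 (g ^ n • x.1))
  symm := ⟨fun _ _ h => ⟨h.1.symm, h.2.symm⟩⟩
  loopless := ⟨fun _ h => h.1 rfl⟩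

/-- walks in `OmG` lift to walks in `Ω`; distances in `OmG` are controlled -/
def LiftStatement : Prop :=
  ∀ (V : Type) (X : Cx V) (Γ : Type) [Group Γ] [MulAction Γ V], X.IsGeom Γ → X.G.Connected →
    ∀ (g : Γ) (K' : ℕ) (Ω : Set V), InfO g → IsOm X g K' Ω →
    (OmG X g Ω).Connected ∧
    (∀ (x y : Ω) (q : (OmG X g Ω).Walk x y), ∃ (n : ℤ) (l : List V),
      IsW X.G x.1 (g ^ n • y.1) l ∧ l.length ≤ q.length + 1 ∧
      (∀ z ∈ l, z ∈ Ω) ∧ (∀ z ∈ l, ∃ w ∈ q.support, ∃ i : ℤ, z = g ^ i • w.1) ∧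
      (∀ w ∈ q.support, ∃ i : ℤ, g ^ i • w.1 ∈ l)) ∧
    (∀ R : ℕ, ∃ Δ : ℕ, ∀ (x y : Ω) (n : ℤ), X.G.dist x.1 (g ^ n • y.1) ≤ R →
      (OmG X g Ω).dist x y ≤ Δ)

/-- 10.1 -/
def BottStatement : Prop :=
  ∀ (V : Type) (X : Cx V) (Γ : Type) [Group Γ] [MulAction Γ V], X.IsMS → X.IsGeom Γ →
    ∀ (g : Γ) (K' : ℕ) (Ω : Set V), InfO g → IsOm X g K' Ω → ∃ Δ, Bott (OmG X g Ω) Δ

/-- Theorem 2 -/
def Thm2Statement : Prop :=
  ∀ (Γ : Type) [Group Γ], IsMSGroup Γ →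
    (∀ a : Γ, InfO a → (Subgroup.centralizer {a}).FG) ∧ PB Γ

end MSG
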