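import Pool.Agent.Lib.MP_acafa7_al.MS.Full1
import Pool.Agent.Lib.MP_acafa7_al.MS.H94.CYL
import Pool.Agent.Lib.MP_acafa7_al.MS.H94.SubM
import Pool.Agent.Lib.MP_acafa7_al.MS.H58.CutOp
import Pool.Agent.Lib.MP_acafa7_al.MS.H48.Dual
import Pool.Agent.Lib.MP_acafa7_al.MS.H14.CutM
import Pool.Agent.Lib.MP_acafa7_al.MS.H16.CycM
import Pool.Agent.Lib.MP_acafa7_al.MS.H25.HomT
import Pool.Agent.Lib.MP_acafa7_al.MS.H25.AnnH
import Pool.Agent.Lib.MP_acafa7_al.MS.H78.AnnZ
import Pool.Agent.Lib.MP_acafa7_al.MS.H25.Ann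
import Pool.Agent.Lib.MP_acafa7_al.MS.H57.FilR
import Pool.Agent.Lib.MP_acafa7_al.MS.H57.FilC
import Pool.Agent.Lib.MP_acafa7_al.MS.H57.QuadA
import Pool.Agent.Lib.MP_acafa7_al.MS.H47.QuadB
import Pool.Agent.Lib.MP_acafa7_al.MS.H14.FlipG
import Pool.Agent.Lib.MP_acafa7_al.MS.H47.FanG
import Pool.Agent.Lib.MP_acafa7_al.MS.H57.ApexG
import Pool.Agent.Lib.MP_acafa7_al.MS.H14.EraseA
import Pool.Agent.Lib.MP_acafa7_al.MS.H14.EraseG
import Pool.Agent.Lib.MP_acafa7_al.MS.H57.LevelG
import Pool.Agent.Lib.MP_acafa7_al.MS.H69.TriA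
import Pool.Agent.Lib.MP_acafa7_al.MS.H69.TriB
import Pool.Agent.Lib.MP_acafa7_al.MS.H69.LevP
import Pool.Agent.Lib.MP_acafa7_al.MS.H21.FlipL
import Pool.Agent.Lib.MP_acafa7_al.MS.H21.FlipDeg
import Pool.Agent.Lib.MP_acafa7_al.MS.H16.FlipM
import Pool.Agent.Lib.MP_acafa7_al.MS.H78.LabV
import Pool.Agent.Lib.MP_acafa7_al.MS.H78.Swap
import Pool.Agent.Lib.MP_acafa7_al.MS.H78.PConn
import Pool.Agent.Lib.MP_acafa7_al.MS.H78.Touch
import Pool.Agent.Lib.MP_acafa7_al.MS.H25.MarkEx
import Pool.Agent.Lib.MP_acafa7_al.MS.H25.FanEx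
import Pool.Agent.Lib.MP_acafa7_al.MS.H78.HairM
import Pool.Agent.Lib.MP_acafa7_al.MS.H50.InA
import Pool.Agent.Lib.MP_acafa7_al.MS.H50.InB
import Pool.Agent.Lib.MP_acafa7_al.MS.H50.InC
import Pool.Agent.Lib.MP_acafa7_al.MS.H50.LoopK
import Pool.Agent.Lib.MP_acafa7_al.MS.H23.DelM
import Pool.Agent.Lib.MP_acafa7_al.MS.H43.PushM
import Pool.Agent.Lib.MP_acafa7_al.MS.H23.EraseM
import Pool.Agent.Lib.MP_acafa7_al.MS.H16.LoopC
import Pool.Agent.Lib.MP_acafa7_al.MS.H74.LoopM
import Pool.Agent.Lib.MP_acafa7_al.MS.H58.Inner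
import Pool.Agent.Lib.MP_acafa7_al.MS.H78.D2
import Pool.Agent.Lib.MP_acafa7_al.MS.H25.ToMA
import Pool.Agent.Lib.MP_acafa7_al.MS.H58.D1
import Pool.Agent.Lib.MP_acafa7_al.MS.H57.Conn
import Pool.Agent.Lib.MP_acafa7_al.MS.H16.G1
import Pool.Agent.Lib.MP_acafa7_al.MS.H58.G2A
import Pool.Agent.Lib.MP_acafa7_al.MS.H74.G2B
import Pool.Agent.Lib.MP_acafa7_al.MS.H37.G2C
import Pool.Agent.Lib.MP_acafa7_al.MS.H53.G2
import Pool.Agent.Lib.MP_acafa7_al.MS.H41.GS
import Pool.Agent.Lib.MP_acafa7_al.MS.H94.G3A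
import Pool.Agent.Lib.MP_acafa7_al.MS.H94.G3B
import Pool.Agent.Lib.MP_acafa7_al.MS.H41.G3C
import Pool.Agent.Lib.MP_acafa7_al.MS.H83.G3
import Pool.Agent.Lib.MP_acafa7_al.MS.H37.QC
import Pool.Agent.Lib.MP_acafa7_al.MS.H64.Rad
import Pool.Agent.Lib.MP_acafa7_al.MS.H62.Om
import Pool.Agent.Lib.MP_acafa7_al.MS.H35.CFG
import Pool.Agent.Lib.MP_acafa7_al.MS.H64.Side
import Pool.Agent.Lib.MP_acafa7_al.MS.H64.Sweep
import Pool.Agent.Lib.MP_acafa7_al.MS.H84.Lift
import Pool.Agent.Lib.MP_acafa7_al.MS.H72.Bott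
import Pool.Agent.Lib.MP_acafa7_al.MS.H32.Thm2

/-! Assembly of stage 2 (sections 8-11). -/

namespace MSG

open Classical

theorem a_cyl : CYLStatement := H94.cyl
theorem a_subM : SubMStatement := H94.subm
theorem a_cutOp : CutOpStatement := H58.cutop
theorem a_dual : DualStatement := H48.dual
theorem a_labV : LabVStatement := H78.labv
theorem a_cutM : CutMStatement := H14.cutm a_subM a_cutOp a_dual a_vh a_labV
theorem a_cycM : CycMStatement := H16.cycM
theorem a_homT : HomTStatement := H25.homt a_sc a_homA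
theorem a_annH : AnnHStatement := H25.annh a_step a_relTrans
theorem a_annZ : AnnZStatement := H78.annz a_rot a_stepD a_relTrans
theorem a_ann : AnnStatement := H25.ann a_cycM a_homT a_annH a_annZ
theorem a_filR : FilRStatement := H57.filr
theorem a_filC : FilCStatement := H57.filc
theorem a_quadA : QuadAStatement := H57.quada
theorem a_quadB : QuadBStatement := H47.quadb
theorem a_flipG : FlipGStatement := H14.flipg a_filC a_quadA a_quadB
theorem a_fanG : FanGStatement := H47.fang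
theorem a_apexG : ApexGStatement := H57.apexg
theorem a_eraseA : EraseAStatement := H14.erasea
theorem a_eraseG : EraseGStatement := H14.eraseg a_filC a_eraseA
theorem a_levelG : LevelGStatement := H57.levelg
theorem a_triA : TriAStatement := H69.tria
theorem a_triB : TriBStatement := H69.trib a_triA
theorem a_levP : LevPStatement := H69.levp
theorem a_flipL : FlipLStatement := H21.flipl
theorem a_flipDeg : FlipDegStatement := H21.flipdeg
theorem a_flipM : FlipMStatement := H16.flipM a_flipL a_flipG a_filR a_ang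
theorem a_swap : SwapStatement := H78.swap
theorem a_pConn : PConnStatement := H78.pconn a_cyl
theorem a_touch : TouchStatement := H78.touch a_pConn a_labV a_cyl
theorem a_markEx : MarkExStatement := H25.markex a_gb2 a_vh a_ang
theorem a_fanEx : FanExStatement := H25.fanex a_vOrb
theorem a_hairM : HairMStatement := H78.hairm a_hair a_vh a_pConn
theorem a_inA : InAStatement := H50.ina a_flipM a_flipDeg a_ang
theorem a_inB : InBStatement := H50.inb a_flipM a_flipDeg a_ang
theorem a_inC : InCStatement := H50.inc a_flipM a_flipDeg a_ang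
theorem a_loopK : LoopKStatement := H50.loopk a_ang
theorem a_delM : DelMStatement := H23.delm a_delV
theorem a_pushM : PushMStatement := H43.pushM a_delM a_fanG a_pConn
theorem a_eraseM : EraseMStatement := H23.erasem a_delM a_addE a_eraseA a_eraseG a_filR a_pConn a_ang
theorem a_loopC : LoopCStatement := H16.loopC a_levP a_levelG a_filR a_cyl
theorem a_loopM : LoopMStatement := H74.loopM a_abs a_delM a_fanG a_apexG a_loopC a_pConn a_ang
theorem a_inner : InnerStatement := H58.inner a_fanEx a_hairM a_inA a_inB a_inC a_loopK a_pushM a_eraseM a_loopM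
theorem a_d2 : D2Statement := H78.d2 a_touch a_markEx a_swap a_inner
theorem a_toMA : ToMAStatement := H25.toma
theorem a_d1 : D1Statement := H58.d1 a_red a_cutM a_toMA a_d2 a_cyl
theorem a_conn : ConnStatement := H57.conn a_triB a_ann a_d1 a_proper a_cyl
theorem a_g1 : G1Statement := H16.g1
theorem a_g2A : G2AStatement := H58.g2a
theorem a_g2B : G2BStatement := H74.g2b
theorem a_g2C : G2CStatement := H37.g2c
theorem a_g2 : G2Statement := H53.g2 a_g2A a_g2B a_g2C
theorem a_gS : GSStatement := H41.gs a_g2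
theorem a_g3A : G3AStatement := H94.g3a
theorem a_g3B : G3BStatement := H94.g3b a_gS
theorem a_g3C : G3CStatement := H41.g3c a_gS
theorem a_g3 : G3Statement := H83.g3 a_g3A a_g3B a_g3C
theorem a_qC : QCStatement := H37.qc
theorem a_rad : RadStatement := H64.rad a_sc a_homA
theorem a_om : OmStatement := H62.om a_conn a_proper
theorem a_cFG : CFGStatement := H35.cfg a_proper
theorem a_side : SideStatement := H64.side
theorem a_sweep : SweepStatement := H64.sweep a_homA a_homB
theorem a_lift : LiftStatement := H84.lift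
theorem a_bott : BottStatement := H72.bott a_tube a_proper a_rad a_side a_sweep a_lift a_homB
theorem a_thm2 : Thm2Statement := H32.thm2 a_om a_cFG a_qC a_bott a_lift a_proper

end MSG
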