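import Pool.Agent.Lib.MP_acafa7_al.MS.Iface1
import Pool.Agent.Lib.MP_acafa7_al.MS.Annuli

/-! Statements of the modules of stage 2, sections 8 and 9 (periodic annuli). -/

namespace MSG

open Classical

/-! ### Section 8: annuli in the complex -/

/-- algebra of `CY` -/
def CYLStatement : Prop :=
  ∀ (V : Type) (X : Cx V) (a : Equiv.Perm V), FreeAut X a → X.G.Connected → ∀ (K : ℕ),
    (∀ x y, CY X a K x y → CY X a K y x) ∧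
    (∀ x y z, CY X a K x y → CY X a K y z → CY X a K x z) ∧
    (∀ x y (n : ℤ), CY X a K x y → CY X a K ((a ^ n) x) ((a ^ n) y)) ∧
    (∀ x y (L : ℕ), X.G.dist x (a x) ≤ L → X.G.dist x y ≤ L → 3 * L ≤ K → CY X a K x y) ∧
    (∀ x (n : ℤ) (L : ℕ), X.G.dist x (a x) ≤ L → 3 * L ≤ K → CY X a K x ((a ^ n) x)) ∧
    (∀ x y, CY X a K x y → X.G.dist x (a x) ≤ K ∧ X.G.dist y (a y) ≤ K)

/-- restriction to a union of components -/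
def SubMStatement : Prop :=
  ∀ (V D : Type) [Fintype D] (a : Equiv.Perm V) (M : LMap V D a) (S : Set D),
    (∀ d ∈ S, M.φ d ∈ S ∧ M.ι d ∈ S) →
    ∃ (D' : Type) (_ : Fintype D') (M' : LMap V D' a) (j : D' → D), Function.Injective j ∧
      (∀ x, (∃ x', j x' = x) ↔ x ∈ S) ∧
      (∀ x, j (M'.φ x) = M.φ (j x) ∧ j (M'.ι x) = M.ι (j x) ∧ M'.f x = M.f (j x) ∧
        M'.γ x = M.γ (j x) ∧ M'.h x = M.h (j x)) ∧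
      (∀ x y, M'.SameV x y ↔ M.SameV (j x) (j y)) ∧ (M.Planar → M'.Planar)

/-- cutting along the edge `p, ι p` (labels of its ends in the same orbit) and capping by two
one-dart faces `n`, `n'` -/
def CutOpStatement : Prop :=
  ∀ (V D : Type) [Fintype D] (a : Equiv.Perm V) (M : LMap V D a) (p : D) (m : ℤ),
    M.t p = (a ^ m) (M.f p) →
    ∃ (D' : Type) (_ : Fintype D') (M' : LMap V D' a) (j : D → D') (n n' : D'),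
      Function.Injective j ∧ n ≠ n' ∧ (∀ x, j x ≠ n ∧ j x ≠ n') ∧
      (∀ d', d' = n ∨ d' = n' ∨ ∃ x, j x = d') ∧
      (∀ x, M'.φ (j x) = j (M.φ x)) ∧ M'.φ n = n ∧ M'.φ n' = n' ∧
      (∀ x, M'.ι (j x) = if x = p then n else if x = M.ι p then n' else j (M.ι x)) ∧
      M'.ι n = j p ∧ M'.ι n' = j (M.ι p) ∧
      (∀ x, M'.f (j x) = M.f x ∧ M'.γ (j x) = M.γ x ∧ M'.h (j x) = M.h x) ∧
      M'.f n = M.f (M.ι p) ∧ M'.f n' = M.f p ∧ M'.γ n = - M.γ p ∧ M'.γ n' = M.γ p ∧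
      M'.h n = -m ∧ M'.h n' = m ∧ (M.Planar → M'.Planar)

/-- a loop separates -/
def DualStatement : Prop :=
  ∀ (D : Type) [Fintype D] (M : DMap D) (p : D), M.Planar → M.SameV p (M.ι p) →
    ∃ S : Set D, p ∈ S ∧ M.ι p ∉ S ∧ (∀ d ∈ S, M.φ d ∈ S) ∧ ∀ d ∈ S, d ≠ p → M.ι d ∈ S

/-- Lemma 8.2 -/
def CutMStatement : Prop :=
  ∀ (V D : Type) [Fintype D] (X : Cx V) (a : Equiv.Perm V), X.IsMetric → FreeAut X a →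
    ∀ (M : LMap V D a) (P Q : List D) (ε : ℤ) (p : D), IsAnn M P Q ε → M.AdjM X.G →
    p ∉ annB P Q → M.ι p ∉ annB P Q → M.SameV p (M.ι p) →
    ∃ (D₁ D₂ : Type) (_ : Fintype D₁) (_ : Fintype D₂) (M₁ : LMap V D₁ a) (M₂ : LMap V D₂ a)
      (P₁ : List D₁) (r₁ : D₁) (r₂ : D₂) (Q₂ : List D₂),
      IsAnn M₁ P₁ [r₁] ε ∧ IsAnn M₂ [r₂] Q₂ ε ∧ M₁.AdjM X.G ∧ M₂.AdjM X.G ∧
      SameF M P M₁ P₁ ∧ SameF M Q M₂ Q₂ ∧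
      M₁.lenM X r₁ = M.lenM X p ∧ M₂.lenM X r₂ = M.lenM X p ∧
      (∃ n : ℤ, M₂.f r₂ = (a ^ n) (M₁.f r₁)) ∧
      Fintype.card D₁ + Q.length + 3 ≤ Fintype.card D + 1 ∧
      Fintype.card D₂ + P.length + 3 ≤ Fintype.card D + 1

/-- the degenerate annulus: a cycle -/
def CycMStatement : Prop :=
  ∀ (V : Type) (X : Cx V) (a : Equiv.Perm V), X.IsMetric → FreeAut X a → ∀ (x : V) (s : List V),
    IsW X.G x (a x) s →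
    ∃ (D : Type) (_ : Fintype D) (M : LMap V D a) (P Q : List D), IsAnn M P Q 1 ∧
      M.AdjM X.G ∧ M.wk P = s ∧ M.HasWalk Q s.reverse

/-- sequences of elementary homotopies through walks with at least three vertices -/
inductive Hom3 {V : Type} (G : SimpleGraph V) : List V → List V → Prop
  | refl (l : List V) : Hom3 G l l
  | step {l l' l'' : List V} {e : ZMod 2} : Stp G Set.univ (fun _ _ _ => 0) l l' e →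
      3 ≤ l'.length → Hom3 G l' l'' → Hom3 G l l''

def HomTStatement : Prop :=
  ∀ (V : Type) (G : SimpleGraph V), G.Connected → SimplyConnected G → ∀ (x y : V) (l l' : List V),
    x ≠ y → IsW G x y l → IsW G x y l' → 3 ≤ l.length → 3 ≤ l'.length → Hom3 G l l'

def AnnHStatement : Prop :=
  ∀ (V D : Type) [Fintype D] (X : Cx V) (a : Equiv.Perm V), FreeAut X a → ∀ (M : LMap V D a)
    (R : List D) (w w' : List V), M.Planar → M.AdjM X.G → M.HasWalk R w → Hom3 X.G w w' →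
    ∃ (D' : Type) (_ : Fintype D') (M' : LMap V D' a) (R' : List D') (n : ℕ), M'.HasWalk R' w' ∧
      M'.Planar ∧ M'.AdjM X.G ∧ M.Rel R M' R' n

/-- conjugation of the walk `s'` by `γ` is removed by rotations and zips -/
def AnnZStatement : Prop :=
  ∀ (V D : Type) [Fintype D] (X : Cx V) (a : Equiv.Perm V), FreeAut X a → ∀ (M : LMap V D a)
    (R : List D) (x y : V) (γ s' : List V), M.Planar → M.AdjM X.G → IsW X.G x y γ →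
    IsW X.G y (a y) s' → 3 ≤ s'.length →
    M.HasWalk R (cat (cat γ s') (γ.map a).reverse).reverse →
    ∃ (D' : Type) (_ : Fintype D') (M' : LMap V D' a) (R' : List D'),
      M'.HasWalk R' s'.reverse ∧ M'.Planar ∧ M'.AdjM X.G ∧ M.Rel R M' R' 0

/-- Lemma 8.1 -/
def AnnStatement : Prop :=
  ∀ (V : Type) (X : Cx V) (a : Equiv.Perm V), X.IsMS → FreeAut X a →
    ∀ (x y : V) (s s' : List V), IsW X.G x (a x) s → IsW X.G y (a y) s' → 3 ≤ s.length →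
    3 ≤ s'.length →
    ∃ (D : Type) (_ : Fintype D) (M : LMap V D a) (P Q : List D), IsAnn M P Q 1 ∧ M.AdjM X.G ∧
      M.wk P = s ∧ M.HasWalk Q s'.reverse

/-! ### Section 9, geometry of triangles and functions -/

/-- rotation, translation and congruence for `Fil` -/
def FilRStatement : Prop :=
  ∀ (V : Type) (X : Cx V) (a : Equiv.Perm V), FreeAut X a → ∀ (C l1 l2 l3 : ℝ)
    (e1 e2 e3 : ℝ → V → ℝ), Fil X C l1 l2 l3 e1 e2 e3 →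
    Fil X C l2 l3 l1 e2 e3 e1 ∧
    (∀ n : ℤ, Fil X C l1 l2 l3 (fun s => sh a n (e1 s)) (fun s => sh a n (e2 s))
      (fun s => sh a n (e3 s))) ∧
    (∀ e1' e2' e3' : ℝ → V → ℝ, (∀ s, 0 ≤ s → s ≤ l1 → e1' s = e1 s) →
      (∀ s, 0 ≤ s → s ≤ l2 → e2' s = e2 s) → (∀ s, 0 ≤ s → s ≤ l3 → e3' s = e3 s) →
      Fil X C l1 l2 l3 e1' e2' e3')

/-- strict triangle inequalities -/
structure Tr (x y z : ℝ) : Prop where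
  px : 0 < x
  py : 0 < y
  pz : 0 < z
  hx : x < y + z
  hy : y < x + z
  hz : z < x + y

/-- `F` is a filling of the triangle `A B Z` -/
structure IsFil {V : Type} (X : Cx V) (C l1 l2 l3 : ℝ) (e1 e2 e3 : ℝ → V → ℝ) (A B Z : ℂ)
    (F : ℂ → V → ℝ) : Prop where
  lip : ∀ p ∈ convexHull ℝ {A, B, Z}, ∀ q ∈ convexHull ℝ {A, B, Z}, ∀ z,
      |F p z - F q z| ≤ C * dist p q
  near : ∀ p ∈ convexHull ℝ {A, B, Z}, Near X (F p)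
  s1 : ∀ s, 0 ≤ s → s ≤ l1 → F (seg A B s) = e1 s
  s2 : ∀ s, 0 ≤ s → s ≤ l2 → F (seg B Z s) = e2 s
  s3 : ∀ s, 0 ≤ s → s ≤ l3 → F (seg Z A s) = e3 s

/-- a filling exists on every realization of the triangle -/
def FilCStatement : Prop :=
  ∀ (V : Type) (X : Cx V) (C l1 l2 l3 : ℝ) (e1 e2 e3 : ℝ → V → ℝ), Tr l1 l2 l3 →
    Fil X C l1 l2 l3 e1 e2 e3 → ∀ A B Z : ℂ, dist A B = l1 → dist B Z = l2 → dist Z A = l3 →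
    ∃ F : ℂ → V → ℝ, IsFil X C l1 l2 l3 e1 e2 e3 A B Z F

/-- triangles `v w x` (sides `c, a1, a2`) and `w v y` (sides `c, b1, b2`) with the common side `v w`
and angle sums less than `π` at `v` and `w` -/
structure QH (c a1 a2 b1 b2 : ℝ) : Prop where
  ta : Tr c a1 a2
  tb : Tr c b1 b2
  sv : ang c a2 a1 + ang b1 c b2 < Real.pi
  sw : ang a1 c a2 + ang c b2 b1 < Real.pi

/-- the other diagonal `y x` of length `L` -/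
structure QL (c a1 a2 b1 b2 L : ℝ) : Prop where
  ta : Tr L a2 b1
  tb : Tr L b2 a1
  av : ang b1 a2 L = ang c a2 a1 + ang b1 c b2
  aw : ang a1 b2 L = ang a1 c a2 + ang c b2 b1
  ax : ang a2 L b1 + ang L a1 b2 = ang a2 a1 c
  ay : ang L b1 a2 + ang b2 L a1 = ang b2 b1 c
  cos : L ^ 2 = a2 ^ 2 + b1 ^ 2 - 2 * a2 * b1 * Real.cos (ang c a2 a1 + ang b1 c b2)

/-- convex quadrilateral, numbers -/
def QuadAStatement : Prop :=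
  ∀ c a1 a2 b1 b2 : ℝ, QH c a1 a2 b1 b2 → ∃ L, QL c a1 a2 b1 b2 L

/-- convex quadrilateral in the plane -/
def QuadBStatement : Prop :=
  ∀ c a1 a2 b1 b2 L : ℝ, QH c a1 a2 b1 b2 → QL c a1 a2 b1 b2 L →
    ∃ v w x y : ℂ, dist v w = c ∧ dist w x = a1 ∧ dist x v = a2 ∧ dist v y = b1 ∧ dist y w = b2 ∧
      dist y x = L ∧
      (∀ p ∈ convexHull ℝ {v, w, x}, ∀ q ∈ convexHull ℝ {w, v, y}, ∃ s, 0 ≤ s ∧ s ≤ c ∧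
        dist p (seg v w s) + dist (seg v w s) q = dist p q) ∧
      (convexHull ℝ {v, w, x} ∩ convexHull ℝ {w, v, y} : Set ℂ) ⊆ {p | ∃ s, 0 ≤ s ∧ s ≤ c ∧
        p = seg v w s} ∧
      (convexHull ℝ {y, x, v} : Set ℂ) ⊆ convexHull ℝ {v, w, x} ∪ convexHull ℝ {w, v, y} ∧
      (convexHull ℝ {x, y, w} : Set ℂ) ⊆ convexHull ℝ {v, w, x} ∪ convexHull ℝ {w, v, y}

/-- 9.1, geometry of the flip -/
def FlipGStatement : Prop :=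
  ∀ (V : Type) (X : Cx V) (C : ℝ), 0 ≤ C → ∀ (c a1 a2 b1 b2 : ℝ) (E A1 A2 B1 B2 : ℝ → V → ℝ),
    QH c a1 a2 b1 b2 → Fil X C c a1 a2 E A1 A2 → Fil X C c b1 b2 (fun s => E (c - s)) B1 B2 →
    ∃ (L : ℝ) (E' : ℝ → V → ℝ), QL c a1 a2 b1 b2 L ∧ E' 0 = B2 0 ∧ E' L = A2 0 ∧
      (∀ s s', 0 ≤ s → s ≤ L → 0 ≤ s' → s' ≤ L → ∀ z, |E' s z - E' s' z| ≤ C * |s - s'|) ∧
      Fil X C L a2 b1 E' A2 B1 ∧ Fil X C L b2 a1 (fun s => E' (L - s)) B2 A1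

/-- 9.3: fan with apex `v`, radii `r`, outer sides `c` -/
def FanGStatement : Prop :=
  ∀ (k : ℕ) (r c : ℕ → ℝ), 1 ≤ k → (∀ j, j < k → Tr (r j) (c j) (r (j + 1))) →
    (∀ j, j + 1 < k → Real.pi ≤
      ang (r (j + 1)) (c j) (r j) + ang (c (j + 1)) (r (j + 1)) (r (j + 2))) →
    ∑ j ∈ Finset.range k, c j ≤ r 0 * Real.cos (ang (c 0) (r 0) (r 1)) +
      r k * Real.cos (ang (r k) (c (k - 1)) (r (k - 1)))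

/-- 9.4 -/
def ApexGStatement : Prop :=
  ∀ (r r' s α β : ℝ), Tr r r' s → 0 < α → α < Real.pi → 0 < β → β < Real.pi →
    Real.pi ≤ α + ang r r' s + β → r * Real.cos α + r' * Real.cos β ≤ s

/-- 9.5 (3d), numbers: triangles `(r0, c0, r1)`, `(r1, c1, r2)` with angle sum `π` at the apex -/
def EraseAStatement : Prop :=
  ∀ (r0 r1 r2 c0 c1 : ℝ), Tr r0 c0 r1 → Tr r1 c1 r2 → ang r0 r1 c0 + ang r1 r2 c1 = Real.pi →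
    Tr c0 c1 (r0 + r2) ∧ ang c0 (r0 + r2) c1 = ang c0 r0 r1 ∧
    ang (r0 + r2) c1 c0 = ang r2 c1 r1 ∧
    ang c1 c0 (r0 + r2) = ang r1 c0 r0 + ang c1 r1 r2

/-- 9.5 (3d), functions -/
def EraseGStatement : Prop :=
  ∀ (V : Type) (X : Cx V) (C : ℝ), 0 ≤ C → ∀ (r0 r1 r2 c0 c1 : ℝ) (E0 F0 G F1 H : ℝ → V → ℝ),
    Tr r0 c0 r1 → Tr r1 c1 r2 → ang r0 r1 c0 + ang r1 r2 c1 = Real.pi →
    Fil X C r0 c0 r1 E0 F0 G → Fil X C r1 c1 r2 (fun s => G (r1 - s)) F1 H →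
    Fil X C c0 c1 (r0 + r2) F0 F1 (fun s => if s ≤ r2 then H s else E0 (s - r2)) ∧
    H r2 = E0 0 ∧
    (∀ s s', 0 ≤ s → s ≤ r0 + r2 → 0 ≤ s' → s' ≤ r0 + r2 → ∀ z,
      |(if s ≤ r2 then H s else E0 (s - r2)) z - (if s' ≤ r2 then H s' else E0 (s' - r2)) z| ≤
        C * |s - s'|)

/-- level segments of a triangle -/
def LevelGStatement : Prop :=
  ∀ (V : Type) (X : Cx V) (C l1 l2 l3 : ℝ) (e1 e2 e3 : ℝ → V → ℝ), Tr l1 l2 l3 →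
    Fil X C l1 l2 l3 e1 e2 e3 → ∀ τ, 0 ≤ τ → τ ≤ 1 → ∀ z,
    |e1 (τ * l1) z - e3 ((1 - τ) * l3) z| ≤ C * (τ * l2)

/-- linear interpolation of the distance functions -/
noncomputable def eE {V : Type} (X : Cx V) (x y : V) (s : ℝ) : V → ℝ := fun z =>
  (1 - s / X.len x y) * (X.G.dist x z : ℝ) + (s / X.len x y) * (X.G.dist y z : ℝ)

/-- 9.0 for triangles with given sides -/
def TriAStatement : Prop :=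
  ∀ l1 l2 l3 : ℝ, Tr l1 l2 l3 → ∃ C₀ : ℝ, 0 < C₀ ∧ ∀ C : ℝ, C₀ ≤ C →
    ∀ (V : Type) (X : Cx V) (x y z : V), X.IsMetric → X.G.Connected → X.G.Adj x y →
    X.G.Adj y z → X.G.Adj z x → X.len x y = l1 → X.len y z = l2 → X.len z x = l3 →
    Fil X C l1 l2 l3 (eE X x y) (eE X y z) (eE X z x)

/-- constants of the complex -/
structure GeoC {V : Type} (X : Cx V) (C Λ : ℝ) : Prop where
  C0 : 0 < C
  le : ∀ x y, X.G.Adj x y → X.len x y ≤ Λ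
  lip : ∀ x y, X.G.Adj x y → ∀ s s', 0 ≤ s → s ≤ X.len x y → 0 ≤ s' → s' ≤ X.len x y → ∀ z,
    |eE X x y s z - eE X x y s' z| ≤ C * |s - s'|
  fil : ∀ x y z, X.G.Adj x y → X.G.Adj y z → X.G.Adj z x →
    Fil X C (X.len x y) (X.len y z) (X.len z x) (eE X x y) (eE X y z) (eE X z x)

/-- 9.0 -/
def TriBStatement : Prop :=
  ∀ (V : Type) (X : Cx V) (Γ : Type) [Group Γ] [MulAction Γ V], X.IsMS → X.IsGeom Γ →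
    ∃ C Λ : ℝ, GeoC X C Λ

/-- standing assumptions of section 9 -/
structure Hyp9 {V : Type} (X : Cx V) (a : Equiv.Perm V) (C K : ℝ) (K' : ℕ) : Prop where
  aut : FreeAut X a
  conn : X.G.Connected
  C0 : 0 < C
  K0 : 0 ≤ K
  K' : 3 * C * K + 8 ≤ K'

/-- paths of near functions moved by at most `C K` -/
def LevPStatement : Prop :=
  ∀ (V : Type) (X : Cx V) (a : Equiv.Perm V) (C K : ℝ) (K' : ℕ), Hyp9 X a C K K' →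
    ∀ (l : ℝ) (e : ℝ → V → ℝ) (x y : V) (m : ℤ), 0 ≤ l → (m = 1 ∨ m = -1) →
    e 0 = kap X x → e l = kap X y → (∀ s, 0 ≤ s → s ≤ l → Near X (e s)) →
    (∀ s s', 0 ≤ s → s ≤ l → 0 ≤ s' → s' ≤ l → ∀ z, |e s z - e s' z| ≤ C * |s - s'|) →
    (∀ s, 0 ≤ s → s ≤ l → ∀ z, |e s z - sh a m (e s) z| ≤ C * K) → CY X a K' x y

/-! ### Section 9, maps -/

/-- `M'` is obtained from `M` by flipping the edge `s, ι s` between two different triangles. -/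
structure IsFlip {D : Type} (M M' : DMap D) (s : D) : Prop where
  ι : ∀ d, M'.ι d = M.ι d
  f0 : M'.φ s = M.φ (M.φ s)
  f1 : M'.φ (M.φ (M.φ s)) = M.φ (M.ι s)
  f2 : M'.φ (M.φ (M.ι s)) = s
  f3 : M'.φ (M.ι s) = M.φ (M.φ (M.ι s))
  f4 : M'.φ (M.φ (M.φ (M.ι s))) = M.φ s
  f5 : M'.φ (M.φ s) = M.ι s
  rest : ∀ d, d ≠ s → d ≠ M.φ s → d ≠ M.φ (M.φ s) → d ≠ M.ι s → d ≠ M.φ (M.ι s) →
    d ≠ M.φ (M.φ (M.ι s)) → M'.φ d = M.φ d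
  sv : ∀ x y, x ≠ s → x ≠ M.ι s → y ≠ s → y ≠ M.ι s → (M'.SameV x y ↔ M.SameV x y)
  sv0 : M'.SameV s (M.φ (M.φ (M.ι s)))
  sv1 : M'.SameV (M.ι s) (M.φ (M.φ s))

/-- flip with labels -/
structure IsFlipL {V D : Type} {a : Equiv.Perm V} (M M' : LMap V D a) (s : D) : Prop where
  flip : IsFlip M.toDMap M'.toDMap s
  fγ : ∀ d, d ≠ s → d ≠ M.ι s → M'.f d = M.f d ∧ M'.γ d = M.γ d
  fs : M'.f s = M.f (M.φ (M.φ (M.ι s)))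
  fι : M'.f (M.ι s) = M.f (M.φ (M.φ s))
  γs : M'.γ s = M.h (M.φ (M.φ (M.ι s))) + M.γ (M.ι s) + M.h s + M.h (M.φ s)
  h0 : M'.h s = M'.γ s
  h1 : M'.h (M.φ (M.φ s)) = M.h (M.φ (M.φ s)) + M.γ s + M.h (M.ι s)
  h2 : M'.h (M.φ (M.ι s)) = M.h (M.φ (M.ι s))
  h3 : M'.h (M.ι s) = - M'.γ s
  h4 : M'.h (M.φ (M.φ (M.ι s))) = M.h (M.φ (M.φ (M.ι s))) + M.γ (M.ι s) + M.h s
  h5 : M'.h (M.φ s) = M.h (M.φ s)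
  hr : ∀ d, d ≠ s → d ≠ M.φ s → d ≠ M.φ (M.φ s) → d ≠ M.ι s → d ≠ M.φ (M.ι s) →
    d ≠ M.φ (M.φ (M.ι s)) → M'.h d = M.h d

def FlipLStatement : Prop :=
  ∀ (V D : Type) [Fintype D] (a : Equiv.Perm V) (M : LMap V D a) (s : D), M.Tri s →
    M.Tri (M.ι s) → M.ι s ≠ M.φ s → M.ι s ≠ M.φ (M.φ s) →
    ∃ M' : LMap V D a, IsFlipL M M' s ∧ (M.Planar → M'.Planar)

def FlipDegStatement : Prop :=
  ∀ (D : Type) [Fintype D] (M M' : DMap D) (s : D), M.Tri3 s → M.Tri3 (M.ι s) → M.ι s ≠ M.φ s →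
    M.ι s ≠ M.φ (M.φ s) → IsFlip M M' s → ∀ d, d ≠ s → d ≠ M.ι s →
    M'.deg d + (if M.SameV d s then 1 else 0) + (if M.SameV d (M.ι s) then 1 else 0) =
      M.deg d + (if M.SameV d (M.φ (M.φ (M.ι s))) then 1 else 0) +
        (if M.SameV d (M.φ (M.φ s)) then 1 else 0)

/-- 9.1 for metric annuli -/
def FlipMStatement : Prop :=
  ∀ (V : Type) (X : Cx V) (a : Equiv.Perm V) (C : ℝ), FreeAut X a → 0 < C →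
    ∀ (𝒜 : MA X a C) (s : 𝒜.D), s ∉ annB 𝒜.P 𝒜.Q → 𝒜.M.ι s ∉ annB 𝒜.P 𝒜.Q →
    𝒜.M.ι s ≠ 𝒜.M.φ s → 𝒜.M.ι s ≠ 𝒜.M.φ (𝒜.M.φ s) →
    𝒜.M.th 𝒜.ℓ s + 𝒜.M.th 𝒜.ℓ (𝒜.M.φ (𝒜.M.ι s)) < Real.pi →
    𝒜.M.th 𝒜.ℓ (𝒜.M.ι s) + 𝒜.M.th 𝒜.ℓ (𝒜.M.φ s) < Real.pi →
    ∃ (M' : LMap V 𝒜.D a) (ℓ' : 𝒜.D → ℝ) (e' : 𝒜.D → ℝ → V → ℝ), IsFlipL 𝒜.M M' s ∧
      IsMA X C M' 𝒜.P 𝒜.Q 𝒜.ε ℓ' e' ∧
      (∀ d, d ≠ s → d ≠ 𝒜.M.ι s → ℓ' d = 𝒜.ℓ d ∧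
        M'.curv ℓ' (annB 𝒜.P 𝒜.Q) d = 𝒜.M.curv 𝒜.ℓ (annB 𝒜.P 𝒜.Q) d) ∧
      (∀ d, d ≠ s → d ≠ 𝒜.M.φ s → d ≠ 𝒜.M.φ (𝒜.M.φ s) → d ≠ 𝒜.M.ι s → d ≠ 𝒜.M.φ (𝒜.M.ι s) →
        d ≠ 𝒜.M.φ (𝒜.M.φ (𝒜.M.ι s)) → M'.th ℓ' d = 𝒜.M.th 𝒜.ℓ d) ∧
      M'.th ℓ' (𝒜.M.φ (𝒜.M.ι s)) = 𝒜.M.th 𝒜.ℓ s + 𝒜.M.th 𝒜.ℓ (𝒜.M.φ (𝒜.M.ι s)) ∧
      M'.th ℓ' (𝒜.M.φ s) = 𝒜.M.th 𝒜.ℓ (𝒜.M.φ s) + 𝒜.M.th 𝒜.ℓ (𝒜.M.ι s) ∧
      M'.th ℓ' (𝒜.M.φ (𝒜.M.φ s)) + M'.th ℓ' (𝒜.M.ι s) = 𝒜.M.th 𝒜.ℓ (𝒜.M.φ (𝒜.M.φ s)) ∧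
      M'.th ℓ' (𝒜.M.φ (𝒜.M.φ (𝒜.M.ι s))) + M'.th ℓ' s =
        𝒜.M.th 𝒜.ℓ (𝒜.M.φ (𝒜.M.φ (𝒜.M.ι s)))

/-- labels are constant along vertices, up to powers of `a` -/
def LabVStatement : Prop :=
  ∀ (V D : Type) (a : Equiv.Perm V) (M : LMap V D a) (x y : D), M.SameV x y →
    ∃ n : ℤ, M.f y = (a ^ n) (M.f x)

/-- exchange of the two boundary faces -/
def SwapStatement : Prop :=
  ∀ (V D : Type) [Fintype D] (X : Cx V) (a : Equiv.Perm V) (C : ℝ) (M : LMap V D a)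
    (P Q : List D) (ε : ℤ) (ℓ : D → ℝ) (e : D → ℝ → V → ℝ), IsMA X C M P Q ε ℓ e →
    IsMA X C M Q P (-ε) ℓ e

/-- labels of one boundary face are connected -/
def PConnStatement : Prop :=
  ∀ (V : Type) (X : Cx V) (a : Equiv.Perm V) (C K : ℝ) (K' : ℕ), Hyp9 X a C K K' →
    ∀ 𝒜 : MA X a C, 𝒜.Le K →
    (∀ p ∈ 𝒜.P, ∀ p' ∈ 𝒜.P, ∀ n : ℤ, CY X a K' (𝒜.M.f p) ((a ^ n) (𝒜.M.f p'))) ∧
    (∀ p ∈ 𝒜.Q, ∀ p' ∈ 𝒜.Q, ∀ n : ℤ, CY X a K' (𝒜.M.f p) ((a ^ n) (𝒜.M.f p')))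

/-- 9.5 (0) -/
def TouchStatement : Prop :=
  ∀ (V : Type) (X : Cx V) (a : Equiv.Perm V) (C K : ℝ) (K' : ℕ), Hyp9 X a C K K' →
    ∀ 𝒜 : MA X a C, 𝒜.Le K → ¬ 𝒜.NoTouch → 𝒜.Good K'

/-- 9.5 (1) -/
def MarkExStatement : Prop :=
  ∀ (V : Type) (X : Cx V) (a : Equiv.Perm V) (C : ℝ), FreeAut X a → ∀ 𝒜 : MA X a C,
    𝒜.NoTouch → ∃ o ∈ annB 𝒜.P 𝒜.Q, (∀ b ∈ annB 𝒜.P 𝒜.Q, 𝒜.M.SameV o b → b = o) ∧
      0 ≤ 𝒜.M.curv 𝒜.ℓ (annB 𝒜.P 𝒜.Q) o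

def FanExStatement : Prop :=
  ∀ (V : Type) (X : Cx V) (a : Equiv.Perm V) (C : ℝ) (𝒜 : MA X a C) (o : 𝒜.D), 𝒜.Marked o →
    ∃ (k : ℕ) (s : ℕ → 𝒜.D), 𝒜.Fan o k s

/-- 9.5 (2) -/
def HairMStatement : Prop :=
  ∀ (V : Type) (X : Cx V) (a : Equiv.Perm V) (C K : ℝ) (K' : ℕ), Hyp9 X a C K K' →
    ∀ (𝒜 : MA X a C) (o : 𝒜.D) (s : ℕ → 𝒜.D), 𝒜.Le K → 𝒜.Marked o → 𝒜.Fan o 0 s →
    𝒜.Smaller K K'

/-- 9.5 (3a), (4a): a loop among the inner spokes -/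
def InAStatement : Prop :=
  ∀ (V : Type) (X : Cx V) (a : Equiv.Perm V) (C : ℝ), FreeAut X a → 0 < C →
    ∀ (𝒜 : MA X a C) (o : 𝒜.D) (k : ℕ) (s : ℕ → 𝒜.D), 𝒜.Marked o → 𝒜.Fan o k s →
    ∀ j, 0 < j → j < k → 𝒜.M.SameV o (𝒜.M.ι (s j)) → 𝒜.SmallerDeg o

/-- 9.5 (3b), (4b) -/
def InBStatement : Prop :=
  ∀ (V : Type) (X : Cx V) (a : Equiv.Perm V) (C : ℝ), FreeAut X a → 0 < C →
    ∀ (𝒜 : MA X a C) (o : 𝒜.D) (k : ℕ) (s : ℕ → 𝒜.D), 𝒜.Marked o → 𝒜.Fan o k s →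
    (0 < 𝒜.M.curv 𝒜.ℓ (annB 𝒜.P 𝒜.Q) o ∨ 3 ≤ k) → ∀ j, j + 2 ≤ k →
    ¬ 𝒜.M.SameV o (𝒜.M.ι (s j)) → ¬ 𝒜.M.SameV o (𝒜.M.ι (s (j + 1))) →
    ¬ 𝒜.M.SameV o (𝒜.M.ι (s (j + 2))) →
    𝒜.M.th 𝒜.ℓ (𝒜.M.ι (s (j + 1))) + 𝒜.M.th 𝒜.ℓ (𝒜.M.φ (s (j + 1))) < Real.pi →
    𝒜.SmallerDeg o

/-- 9.5 (4c) -/
def InCStatement : Prop :=
  ∀ (V : Type) (X : Cx V) (a : Equiv.Perm V) (C : ℝ), FreeAut X a → 0 < C →
    ∀ (𝒜 : MA X a C) (o : 𝒜.D) (k : ℕ) (s : ℕ → 𝒜.D), 𝒜.Marked o → 𝒜.Fan o k s →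
    𝒜.M.φ o = o → 3 ≤ k → (∀ j, 0 < j → j < k → ¬ 𝒜.M.SameV o (𝒜.M.ι (s j))) →
    𝒜.M.th 𝒜.ℓ (𝒜.M.ι (s (k - 1))) + 𝒜.M.th 𝒜.ℓ (𝒜.M.ι (s 1)) +
      𝒜.M.th 𝒜.ℓ (𝒜.M.φ (s 1)) < Real.pi → 𝒜.SmallerDeg o

/-- in case (4) the degree is at least 4 -/
def LoopKStatement : Prop :=
  ∀ (V : Type) (X : Cx V) (a : Equiv.Perm V) (C : ℝ), FreeAut X a →
    ∀ (𝒜 : MA X a C) (o : 𝒜.D) (k : ℕ) (s : ℕ → 𝒜.D), 𝒜.Marked o → 𝒜.Fan o k s →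
    𝒜.M.φ o = o → 3 ≤ k

/-- deletion of the vertex of the only big dart `o` in a metric annulus -/
def DelMStatement : Prop :=
  ∀ (V : Type) (X : Cx V) (a : Equiv.Perm V) (C : ℝ), FreeAut X a →
    ∀ (𝒜 : MA X a C) (o : 𝒜.D) (k : ℕ) (s : ℕ → 𝒜.D), o ∈ 𝒜.P →
    (∀ b ∈ annB 𝒜.P 𝒜.Q, 𝒜.M.SameV o b → b = o) → 𝒜.Fan o k s → 𝒜.M.φ o ≠ o → 1 ≤ k →
    (∀ j, 0 < j → j < k → ¬ 𝒜.M.SameV o (𝒜.M.ι (s j))) →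
    ∃ (𝒜' : MA X a C) (q : 𝒜'.D → 𝒜.D) (rest : List 𝒜.D), Function.Injective q ∧
      (∀ x, (∃ x', q x' = x) ↔ ∀ j, j ≤ k → x ≠ s j ∧ x ≠ 𝒜.M.ι (s j)) ∧
      𝒜'.P.map q = (List.range k).map (fun j => 𝒜.M.φ (s j)) ++ rest ∧
      (𝒜.M.ι (s 0) :: o :: rest).IsRotated 𝒜.P ∧ 𝒜'.Q.map q = 𝒜.Q ∧ 𝒜'.ε = 𝒜.ε ∧
      Fintype.card 𝒜'.D + 2 * (k + 1) = Fintype.card 𝒜.D ∧
      (∀ x, x ∉ 𝒜'.P → q (𝒜'.M.φ x) = 𝒜.M.φ (q x) ∧ 𝒜'.M.h x = 𝒜.M.h (q x)) ∧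
      (∀ x, q (𝒜'.M.ι x) = 𝒜.M.ι (q x) ∧ 𝒜'.M.f x = 𝒜.M.f (q x) ∧
        𝒜'.M.γ x = 𝒜.M.γ (q x) ∧ 𝒜'.ℓ x = 𝒜.ℓ (q x) ∧ 𝒜'.e x = 𝒜.e (q x)) ∧
      (∀ x y, 𝒜'.M.SameV x y ↔ 𝒜.M.SameV (q x) (q y))

/-- 9.5 (3c): push -/
def PushMStatement : Prop :=
  ∀ (V : Type) (X : Cx V) (a : Equiv.Perm V) (C K : ℝ) (K' : ℕ), Hyp9 X a C K K' →
    ∀ (𝒜 : MA X a C) (o : 𝒜.D) (k : ℕ) (s : ℕ → 𝒜.D), 𝒜.Le K → 𝒜.Marked o → 𝒜.Fan o k s →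
    𝒜.M.φ o ≠ o → 1 ≤ k → (∀ j, 0 < j → j < k → ¬ 𝒜.M.SameV o (𝒜.M.ι (s j))) →
    (∀ j, 0 < j → j < k →
      Real.pi ≤ 𝒜.M.th 𝒜.ℓ (𝒜.M.ι (s j)) + 𝒜.M.th 𝒜.ℓ (𝒜.M.φ (s j))) →
    𝒜.Smaller K K'

/-- 9.5 (3d): erase a flat boundary vertex with two triangles -/
def EraseMStatement : Prop :=
  ∀ (V : Type) (X : Cx V) (a : Equiv.Perm V) (C K : ℝ) (K' : ℕ), Hyp9 X a C K K' →
    ∀ (𝒜 : MA X a C) (o : 𝒜.D) (s : ℕ → 𝒜.D), 𝒜.Le K → 𝒜.Marked o → 𝒜.Fan o 2 s →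
    𝒜.M.φ o ≠ o → ¬ 𝒜.M.SameV o (𝒜.M.ι (s 1)) →
    𝒜.M.curv 𝒜.ℓ (annB 𝒜.P 𝒜.Q) o = 0 → 𝒜.Smaller K K'

/-- 9.5 (4d): the labels of the loop and of the first vertex of the link are connected -/
def LoopCStatement : Prop :=
  ∀ (V : Type) (X : Cx V) (a : Equiv.Perm V) (C K : ℝ) (K' : ℕ), Hyp9 X a C K K' →
    ∀ (𝒜 : MA X a C) (o : 𝒜.D) (k : ℕ) (s : ℕ → 𝒜.D), 𝒜.Le K → 𝒜.Marked o → 𝒜.Fan o k s →
    𝒜.M.φ o = o → 3 ≤ k →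
    ∑ j ∈ Finset.range (k - 2), 𝒜.ℓ (𝒜.M.φ (s (j + 1))) ≤ K →
    ∀ n : ℤ, CY X a K' (𝒜.M.f o) ((a ^ n) (𝒜.M.f (𝒜.M.φ (s 1))))

/-- 9.5 (4d) -/
def LoopMStatement : Prop :=
  ∀ (V : Type) (X : Cx V) (a : Equiv.Perm V) (C K : ℝ) (K' : ℕ), Hyp9 X a C K K' →
    ∀ (𝒜 : MA X a C) (o : 𝒜.D) (k : ℕ) (s : ℕ → 𝒜.D), 𝒜.Le K → 𝒜.Marked o → 𝒜.Fan o k s →
    𝒜.M.φ o = o → 3 ≤ k → (∀ j, 0 < j → j < k → ¬ 𝒜.M.SameV o (𝒜.M.ι (s j))) →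
    (∀ j, 2 ≤ j → j + 2 ≤ k →
      Real.pi ≤ 𝒜.M.th 𝒜.ℓ (𝒜.M.ι (s j)) + 𝒜.M.th 𝒜.ℓ (𝒜.M.φ (s j))) →
    Real.pi ≤ 𝒜.M.th 𝒜.ℓ (𝒜.M.ι (s (k - 1))) + 𝒜.M.th 𝒜.ℓ (𝒜.M.ι (s 1)) +
      𝒜.M.th 𝒜.ℓ (𝒜.M.φ (s 1)) → 𝒜.Smaller K K'

/-- 9.5, a marked vertex gives a smaller annulus -/
def InnerStatement : Prop :=
  ∀ (V : Type) (X : Cx V) (a : Equiv.Perm V) (C K : ℝ) (K' : ℕ), Hyp9 X a C K K' →
    ∀ (𝒜 : MA X a C) (o : 𝒜.D), 𝒜.Le K → 𝒜.Marked o → 𝒜.Smaller K K'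

/-- Theorem 9.5 -/
def D2Statement : Prop :=
  ∀ (V : Type) (X : Cx V) (a : Equiv.Perm V) (C K : ℝ) (K' : ℕ), Hyp9 X a C K K' →
    ∀ 𝒜 : MA X a C, 𝒜.Le K → 𝒜.Good K'

/-! ### Theorem 8.3 -/

/-- annuli in the complex with nonpositive interior curvature are metric annuli -/
def ToMAStatement : Prop :=
  ∀ (V D : Type) [Fintype D] (X : Cx V) (a : Equiv.Perm V) (C Λ : ℝ), X.IsMetric →
    X.G.Connected → FreeAut X a → GeoC X C Λ → ∀ (M : LMap V D a) (P Q : List D) (ε : ℤ),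
    IsAnn M P Q ε → M.AdjM X.G →
    (∀ d, (∀ b, M.SameV d b → b ∉ annB P Q) → M.curv (M.lenM X) (annB P Q) d ≤ 0) →
    IsMA X C M P Q ε (M.lenM X) (fun d => eE X (M.f d) (M.t d))

/-- induction on the number of triangles -/
def D1Statement : Prop :=
  ∀ (V : Type) (X : Cx V) (a : Equiv.Perm V) (C Λ K : ℝ) (K' : ℕ), X.IsMS → GeoC X C Λ →
    Λ ≤ K → Hyp9 X a C K K' → ∀ (D : Type) [Fintype D] (M : LMap V D a) (P Q : List D) (ε : ℤ),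
    IsAnn M P Q ε → M.AdjM X.G → (P.map (M.lenM X)).sum ≤ K → (Q.map (M.lenM X)).sum ≤ K →
    ∀ p ∈ P, ∀ q ∈ Q, CY X a K' (M.f p) (M.f q)

end MSG
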