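import Pool.Agent.Lib.MP_acafa7_al.MS.H09.Abs
import Pool.Agent.Lib.MP_acafa7_al.MS.H25.AddE
import Pool.Agent.Lib.MP_acafa7_al.MS.H97.AddH
import Pool.Agent.Lib.MP_acafa7_al.MS.H09.Ang
import Pool.Agent.Lib.MP_acafa7_al.MS.H97.Close
import Pool.Agent.Lib.MP_acafa7_al.MS.H81.Comm
import Pool.Agent.Lib.MP_acafa7_al.MS.H30.Cone
import Pool.Agent.Lib.MP_acafa7_al.MS.H23.DelV
import Pool.Agent.Lib.MP_acafa7_al.MS.H16.Eul
import Pool.Agent.Lib.MP_acafa7_al.MS.H97.Fill
import Pool.Agent.Lib.MP_acafa7_al.MS.H22.Gb0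
import Pool.Agent.Lib.MP_acafa7_al.MS.H58.Gb2
import Pool.Agent.Lib.MP_acafa7_al.MS.H25.Grid
import Pool.Agent.Lib.MP_acafa7_al.MS.H09.Hair
import Pool.Agent.Lib.MP_acafa7_al.MS.H64.HomA
import Pool.Agent.Lib.MP_acafa7_al.MS.H64.HomB
import Pool.Agent.Lib.MP_acafa7_al.MS.H96.Ht
import Pool.Agent.Lib.MP_acafa7_al.MS.H94.LinkA
import Pool.Agent.Lib.MP_acafa7_al.MS.H94.LinkB
import Pool.Agent.Lib.MP_acafa7_al.MS.H16.Proper
import Pool.Agent.Lib.MP_acafa7_al.MS.H21.Red
import Pool.Agent.Lib.MP_acafa7_al.MS.H57.RelTrans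
import Pool.Agent.Lib.MP_acafa7_al.MS.H70.Rot
import Pool.Agent.Lib.MP_acafa7_al.MS.H16.Sc
import Pool.Agent.Lib.MP_acafa7_al.MS.H21.Sph
import Pool.Agent.Lib.MP_acafa7_al.MS.H21.SphC
import Pool.Agent.Lib.MP_acafa7_al.MS.H72.Star
import Pool.Agent.Lib.MP_acafa7_al.MS.H72.StarDel
import Pool.Agent.Lib.MP_acafa7_al.MS.H57.Step
import Pool.Agent.Lib.MP_acafa7_al.MS.H25.StepC
import Pool.Agent.Lib.MP_acafa7_al.MS.H70.StepD
import Pool.Agent.Lib.MP_acafa7_al.MS.H70.StepI
import Pool.Agent.Lib.MP_acafa7_al.MS.H49.Thm1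
import Pool.Agent.Lib.MP_acafa7_al.MS.H84.Tube
import Pool.Agent.Lib.MP_acafa7_al.MS.H98.TubeP
import Pool.Agent.Lib.MP_acafa7_al.MS.H98.TubeW
import Pool.Agent.Lib.MP_acafa7_al.MS.H72.VOrb
import Pool.Agent.Lib.MP_acafa7_al.MS.H09.Vh
import Pool.Agent.Lib.MP_acafa7_al.MS.H78.Zip

/-! Assembly of stage 1 (sections 1-7). -/

namespace MSG

open Classical

theorem a_linkA : LinkAStatement := H94.linka
theorem a_linkB : LinkBStatement := H94.linkb a_linkA
theorem a_cone : ConeStatement := H30.cone a_linkB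
theorem a_ang : AngStatement := H09.ang
theorem a_eul : EulStatement := H16.eul
theorem a_gb0 : Gb0Statement := H22.gb0 a_eul a_ang
theorem a_gb2 : Gb2Statement := H58.gb2 a_eul a_ang
theorem a_vOrb : VOrbStatement := H72.vorb
theorem a_vh : VhStatement := H09.vh
theorem a_addH : AddHStatement := H97.addh
theorem a_addE : AddEStatement := H25.adde
theorem a_zip : ZipStatement := H78.zip
theorem a_hair : HairStatement := H09.hair
theorem a_abs : AbsStatement := H09.abs
theorem a_stepI : StepIStatement := H70.stepi a_addH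
theorem a_stepD : StepDStatement := H70.stepd a_zip
theorem a_stepC : StepCStatement := H25.stepc a_addE
theorem a_close : CloseStatement := H97.close a_zip
theorem a_rot : RotStatement := H70.rot
theorem a_relTrans : RelTransStatement := H57.reltrans
theorem a_step : StepStatement := H57.step a_stepI a_stepD a_stepC a_relTrans
theorem a_fill : FillStatement := H97.fill a_step a_close a_rot a_relTrans
theorem a_delV : DelVStatement := H23.delv a_abs a_hair
theorem a_star : StarStatement := H72.star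
theorem a_starDel : StarDelStatement := H72.stardel a_star a_delV
theorem a_red : RedStatement := H21.red a_starDel a_cone a_fill
theorem a_sphC : SphCStatement := H21.sphc a_gb0 a_red a_ang
theorem a_sph : SphStatement := H21.sph a_sphC a_step a_close a_relTrans
theorem a_sc : ScStatement := H16.sc
theorem a_homA : HomAStatement := H64.homa
theorem a_homB : HomBStatement := H64.B.homb a_homA
theorem a_tubeW : TubeWStatement := H98.tubew
theorem a_tubeP : TubePStatement := H98.tubep
theorem a_ht : HtStatement := H96.ht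
theorem a_tube : TubeStatement := H84.tube a_sph a_sc a_homA a_homB a_tubeW a_tubeP a_ht
theorem a_proper : ProperStatement := H16.proper
theorem a_grid : GridStatement := H25.grid a_sc a_homA a_homB
theorem a_comm : CommStatement := H81.comm a_tube a_grid a_proper a_homA a_homB
theorem a_thm1 : Thm1Statement := H49.thm1 a_comm

end MSG
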