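import Mathlib

/-! Metrically systolic complexes and groups, combinatorial form.  (MP_acafa7_al, helper3)

A metric flag complex is given by its 1-skeleton (a graph) and the lengths of the edges; every
3-clique is a Euclidean triangle with these side lengths. -/

namespace MSG

/-- The angle opposite to the side `c` of a Euclidean triangle with sides `a`, `b`, `c`. -/
noncomputable def ang (a b c : ℝ) : ℝ := Real.arccos ((a ^ 2 + b ^ 2 - c ^ 2) / (2 * a * b))

/-- A flag complex (given by its 1-skeleton `G`) with lengths `len` of the edges. -/
structure Cx (V : Type) where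
  G : SimpleGraph V
  len : V → V → ℝ

namespace Cx

variable {V : Type} (X : Cx V)

/-- The angle at the vertex `v` of the triangle `v x y`. -/
noncomputable def A (v x y : V) : ℝ := ang (X.len v x) (X.len v y) (X.len x y)

/-- Metric simplicial complex: all triangles are nondegenerate Euclidean triangles, and the angles
satisfy the triangle inequality for three pairwise adjacent vertices of a link. -/
structure IsMetric : Prop where
  symm : ∀ x y, X.len x y = X.len y x
  pos : ∀ x y, X.G.Adj x y → 0 < X.len x y
  tri : ∀ x y z, X.G.Adj x y → X.G.Adj y z → X.G.Adj x z → X.len x z < X.len x y + X.len y z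
  angle : ∀ v x y z, X.G.Adj v x → X.G.Adj v y → X.G.Adj v z →
    X.G.Adj x y → X.G.Adj y z → X.G.Adj x z → X.A v x z ≤ X.A v x y + X.A v y z

/-- `c` (a `k`-periodic sequence) is a simple `k`-cycle in the link of `v`. -/
structure IsCycle (v : V) (k : ℕ) (c : ℕ → V) : Prop where
  per : ∀ i, c (i + k) = c i
  link : ∀ i, X.G.Adj v (c i)
  adj : ∀ i, X.G.Adj (c i) (c (i + 1))
  inj : ∀ i j, i < k → j < k → c i = c j → i = j

/-- Every 2-full simple cycle (no edge joins two vertices of the cycle with a common neighbour on
the cycle) of every link has angular length at least `2π`. -/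
def Large : Prop :=
  ∀ (v : V) (k : ℕ) (c : ℕ → V), 4 ≤ k → X.IsCycle v k c →
    (∀ i, ¬ X.G.Adj (c i) (c (i + 2))) →
    2 * Real.pi ≤ ∑ i ∈ Finset.range k, X.A v (c i) (c (i + 1))

end Cx

/-- Elementary homotopies of edge paths (lists of vertices) of the flag complex of `G`:
insertion of a backtrack, or replacing an edge by the two other sides of a triangle. -/
inductive Move {V : Type} (G : SimpleGraph V) : List V → List V → Prop
  | back (u v : List V) (x y : V) : G.Adj x y → Move G (u ++ x :: v) (u ++ x :: y :: x :: v)
  | tri (u v : List V) (x y z : V) : G.Adj x y → G.Adj y z → G.Adj x z →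
      Move G (u ++ x :: z :: v) (u ++ x :: y :: z :: v)

/-- `l` is an edge path from `x` to `y`. -/
structure IsW {V : Type} (G : SimpleGraph V) (x y : V) (l : List V) : Prop where
  chain : l.IsChain G.Adj
  first : l.head? = some x
  last : l.getLast? = some y

/-- The flag complex of `G` is simply connected: each closed edge path can be transformed into a
constant path by elementary homotopies. -/
def SimplyConnected {V : Type} (G : SimpleGraph V) : Prop :=
  ∀ (x : V) (l : List V), IsW G x x l → Relation.EqvGen (Move G) l [x]

/-- Metrically systolic complex. -/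
structure Cx.IsMS {V : Type} (X : Cx V) : Prop where
  metric : X.IsMetric
  conn : X.G.Connected
  sc : SimplyConnected X.G
  large : X.Large

/-- Geometric action: by automorphisms preserving the lengths, with finite vertex stabilizers and
finitely many orbits of vertices, on a locally finite complex. -/
structure Cx.IsGeom {V : Type} (X : Cx V) (Γ : Type) [Group Γ] [MulAction Γ V] : Prop where
  adj : ∀ (g : Γ) x y, X.G.Adj (g • x) (g • y) ↔ X.G.Adj x y
  len : ∀ (g : Γ) x y, X.len (g • x) (g • y) = X.len x y
  stab : ∀ x : V, {g : Γ | g • x = x}.Finite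
  cocompact : ∃ s : Finset V, ∀ x, ∃ g : Γ, ∃ y ∈ s, g • y = x
  locfin : ∀ x : V, {y | X.G.Adj x y}.Finite

/-- Metrically systolic group. -/
def IsMSGroup (Γ : Type) [Group Γ] : Prop :=
  ∃ (V : Type) (X : Cx V) (_ : MulAction Γ V), X.IsMS ∧ X.IsGeom Γ

end MSG
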