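import Pool.Agent.Lib.MP_acafa7_al.MS.Maps

/-! Statements of the modules of stage 1 (Paper.md sections 1-7).  Each module proves
`theorem <name in lower case> (hypotheses = statements of column uses) : <Name>Statement`. -/

namespace MSG

open Classical

/-! ### Section 1: links -/

/-- Lemma 1.1: two non-neighbouring ears. -/
def LinkAStatement : Prop :=
  ∀ (V : Type) (X : Cx V), X.IsMetric → X.Large → ∀ (v : V) (k : ℕ) (c : ℕ → V), 4 ≤ k →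
    X.IsCycle v k c → ∑ i ∈ Finset.range k, X.A v (c i) (c (i + 1)) < 2 * Real.pi →
    ∃ i j, i < k ∧ j < k ∧ i + 2 ≤ j ∧ j + 2 ≤ i + k ∧
      X.G.Adj (c i) (c (i + 2)) ∧ X.G.Adj (c j) (c (j + 2))

/-- Lemma 1.2. -/
def LinkBStatement : Prop :=
  ∀ (V : Type) (X : Cx V), X.IsMetric → X.Large → ∀ (v : V) (k : ℕ) (u : ℕ → V), 4 ≤ k →
    (∀ i, u (i + k) = u i) → (∀ i, X.G.Adj v (u i)) → (∀ i, X.G.Adj (u i) (u (i + 1))) →
    ∑ i ∈ Finset.range k, X.A v (u i) (u (i + 1)) < 2 * Real.pi →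
    ∃ i, u i = u (i + 2) ∨ X.G.Adj (u i) (u (i + 2))

/-- Lemma 1.3: coning off; closed walk `u 0, .., u k = u 0` in the link of `x`. -/
def ConeStatement : Prop :=
  ∀ (V : Type) (X : Cx V), X.IsMetric → X.Large → ∀ (Y : Set V) (ω : V → V → V → ZMod 2),
    Cocyc X.G Y ω → ∀ (x : V) (k : ℕ) (u : ℕ → V), x ∈ Y → 2 ≤ k → (∀ i, u i ∈ Y) →
    (∀ i, u (i + k) = u i) → (∀ i, X.G.Adj x (u i)) → (∀ i, X.G.Adj (u i) (u (i + 1))) →
    ∑ i ∈ Finset.range k, X.A x (u i) (u (i + 1)) < 2 * Real.pi →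
    ∃ n, n + 2 ≤ k ∧ NulP X.G Y ω ((List.range (k + 1)).map u)
      (∑ i ∈ Finset.range k, ω x (u i) (u (i + 1))) n

/-! ### Section 2: maps -/

/-- Lemma 2.1: Euler inequality. -/
def EulStatement : Prop :=
  ∀ (D : Type) [Fintype D] (M : DMap D), M.Planar → Nonempty D →
    Fintype.card D + 4 ≤ 2 * (M.nV + M.nF)

/-- Lemma 2.3, no big face: a vertex of positive curvature. -/
def Gb0Statement : Prop :=
  ∀ (D : Type) [Fintype D] (M : DMap D) (ℓ : D → ℝ), M.Planar → Nonempty D → M.Off3 ∅ →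
    M.LenOK ℓ ∅ → ∃ d, 0 < M.curv ℓ ∅ d

/-- Lemma 2.3, two big faces. -/
def Gb2Statement : Prop :=
  ∀ (D : Type) [Fintype D] (M : DMap D) (ℓ : D → ℝ) (P Q : List D), M.Planar → M.IsFace P →
    M.IsFace Q → (∀ d, d ∈ P → d ∉ Q) → M.Off3 {d | d ∈ P ∨ d ∈ Q} →
    M.LenOK ℓ {d | d ∈ P ∨ d ∈ Q} →
    (∃ d, 0 < M.curv ℓ {d | d ∈ P ∨ d ∈ Q} d) ∨ ∀ d, M.curv ℓ {d | d ∈ P ∨ d ∈ Q} d = 0

/-- Lemma 2.2: the shifts of a closed component add up to zero. -/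
def VhStatement : Prop :=
  ∀ (V D : Type) [Fintype D] (a : Equiv.Perm V), (∀ (x : V) (n : ℤ), (a ^ n) x = x → n = 0) →
    ∀ (M : LMap V D a) (C : Set D), (∀ d ∈ C, M.φ d ∈ C ∧ M.ι d ∈ C) →
    ∑ d : D, (if d ∈ C then M.h d else 0) = 0

/-- Corners of a triangle: the three angles add up to `π`. -/
def AngStatement : Prop :=
  ∀ a b c : ℝ, 0 < a → 0 < b → 0 < c → a < b + c → b < a + c → c < a + b →
    0 < ang a b c ∧ ang a b c < Real.pi ∧ ang a b c + ang b c a + ang c a b = Real.pi ∧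
    ang a b c = ang b a c

/-! ### Section 3: moves -/

/-- a hair at the corner before `r`, new vertex labelled `y` -/
def AddHStatement : Prop :=
  ∀ (V D : Type) [Fintype D] (a : Equiv.Perm V) (M : LMap V D a) (r : D) (y : V),
    ∃ (D' : Type) (_ : Fintype D') (M' : LMap V D' a) (j : D → D') (n n' : D'),
      Function.Injective j ∧ n ≠ n' ∧ (∀ x, j x ≠ n ∧ j x ≠ n') ∧
      (∀ d', d' = n ∨ d' = n' ∨ ∃ x, j x = d') ∧
      (∀ x, M'.φ (j x) = if M.φ x = r then n else j (M.φ x)) ∧ M'.φ n = n' ∧ M'.φ n' = j r ∧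
      (∀ x, M'.ι (j x) = j (M.ι x)) ∧ M'.ι n = n' ∧
      (∀ x, M'.f (j x) = M.f x ∧ M'.γ (j x) = M.γ x ∧ M'.h (j x) = M.h x) ∧
      M'.f n = M.f r ∧ M'.f n' = y ∧ M'.γ n = 0 ∧ M'.h n = 0 ∧ M'.h n' = 0 ∧
      (M.Planar → M'.Planar)

/-- an edge `n` parallel to `r, φ r` cutting off the triangle `r, φ r, n'` -/
def AddEStatement : Prop :=
  ∀ (V D : Type) [Fintype D] (a : Equiv.Perm V) (M : LMap V D a) (r : D), M.φ r ≠ r →
    ∃ (D' : Type) (_ : Fintype D') (M' : LMap V D' a) (j : D → D') (n n' : D'),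
      Function.Injective j ∧ n ≠ n' ∧ (∀ x, j x ≠ n ∧ j x ≠ n') ∧
      (∀ d', d' = n ∨ d' = n' ∨ ∃ x, j x = d') ∧
      (∀ x, M'.φ (j x) = if x = M.φ r then n' else if M.φ x = r then n else j (M.φ x)) ∧
      M'.φ n' = j r ∧ (M'.φ n = if M.φ (M.φ r) = r then n else j (M.φ (M.φ r))) ∧
      (∀ x, M'.ι (j x) = j (M.ι x)) ∧ M'.ι n = n' ∧
      (∀ x, M'.f (j x) = M.f x ∧ M'.γ (j x) = M.γ x ∧ M'.h (j x) = M.h x) ∧
      M'.f n = M.f r ∧ M'.f n' = M.f (M.φ (M.φ r)) ∧ M'.γ n = M.h r + M.h (M.φ r) ∧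
      M'.h n = M.h r + M.h (M.φ r) ∧ M'.h n' = -(M.h r + M.h (M.φ r)) ∧
      (∀ x y, M'.SameV (j x) (j y) ↔ M.SameV x y) ∧ M'.SameV n (j r) ∧
      M'.SameV n' (j (M.φ (M.φ r))) ∧ (M.Planar → M'.Planar)

/-- zipping `d` and `e = φ d` (backtrack: `t e` = `f d` in the chart of `d`) -/
def ZipStatement : Prop :=
  ∀ (V D : Type) [Fintype D] (a : Equiv.Perm V) (M : LMap V D a) (d : D), M.φ d ≠ d →
    (a ^ M.h d) (M.t (M.φ d)) = M.f d →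
    ∃ (D' : Type) (_ : Fintype D') (M' : LMap V D' a) (j : D' → D),
      Function.Injective j ∧ (∀ x, (∃ x', j x' = x) ↔ (x ≠ d ∧ x ≠ M.φ d)) ∧
      (∀ x, j (M'.φ x) = if M.φ (j x) = d then M.φ (M.φ d) else M.φ (j x)) ∧
      (∀ x, j (M'.ι x) = if j x = M.ι d then M.ι (M.φ d) else if j x = M.ι (M.φ d) then M.ι d
        else M.ι (j x)) ∧
      (∀ x, M'.f x = M.f (j x)) ∧
      (∀ x, M'.γ x = if j x = M.ι d then M.h d + M.γ (M.φ d) - M.γ d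
        else if j x = M.ι (M.φ d) then -(M.h d + M.γ (M.φ d) - M.γ d) else M.γ (j x)) ∧
      (∀ x, M'.h x = if M.φ (j x) = d then M.h (j x) + M.h d + M.h (M.φ d) else M.h (j x)) ∧
      (M.Planar → M'.Planar)

/-- removal of a hair `d, ι d = φ d`, with vertices -/
def HairStatement : Prop :=
  ∀ (V D : Type) [Fintype D] (a : Equiv.Perm V), (∀ (x : V) (n : ℤ), (a ^ n) x = x → n = 0) →
    ∀ (M : LMap V D a) (d : D), M.φ d = M.ι d → M.φ (M.ι d) ≠ d →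
    ∃ (D' : Type) (_ : Fintype D') (M' : LMap V D' a) (j : D' → D),
      Function.Injective j ∧ (∀ x, (∃ x', j x' = x) ↔ (x ≠ d ∧ x ≠ M.ι d)) ∧
      (∀ x, j (M'.φ x) = if M.φ (j x) = d then M.φ (M.ι d) else M.φ (j x)) ∧
      (∀ x, j (M'.ι x) = M.ι (j x)) ∧ (∀ x, M'.f x = M.f (j x)) ∧ (∀ x, M'.γ x = M.γ (j x)) ∧
      (∀ x, M'.h x = if M.φ (j x) = d then M.h (j x) + M.h d + M.h (M.φ d) else M.h (j x)) ∧
      (∀ x y, M'.SameV x y ↔ M.SameV (j x) (j y)) ∧ (M.Planar → M'.Planar)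

/-- absorbing the triangle of `ι d` into the face of `d` -/
def AbsStatement : Prop :=
  ∀ (V D : Type) [Fintype D] (a : Equiv.Perm V) (M : LMap V D a) (d : D), M.Tri (M.ι d) →
    d ≠ M.φ (M.ι d) → d ≠ M.φ (M.φ (M.ι d)) →
    ∃ (D' : Type) (_ : Fintype D') (M' : LMap V D' a) (j : D' → D),
      Function.Injective j ∧ (∀ x, (∃ x', j x' = x) ↔ (x ≠ d ∧ x ≠ M.ι d)) ∧
      (∀ x, j (M'.φ x) = if M.φ (j x) = d then M.φ (M.ι d) else if M.φ (j x) = M.ι d then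
        (if M.φ d = d then M.φ (M.ι d) else M.φ d) else M.φ (j x)) ∧
      (∀ x, j (M'.ι x) = M.ι (j x)) ∧ (∀ x, M'.f x = M.f (j x)) ∧ (∀ x, M'.γ x = M.γ (j x)) ∧
      (∀ x, M'.h x = if M.φ (j x) = d then M.h (j x) + M.γ d + M.h (M.ι d)
        else if M.φ (j x) = M.ι d then
          (if M.φ d = d then M.h (j x) + M.h d + M.h (M.ι d) else M.h (j x) - M.γ d + M.h d)
        else M.h (j x)) ∧
      (∀ x y, M'.SameV x y ↔ M.SameV (j x) (j y)) ∧ (M.Planar → M'.Planar)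

/-- conclusion of one step on a face `R` with walk `w` -/
def StepConcl {V D : Type} [Fintype D] {a : Equiv.Perm V} (G : SimpleGraph V) (Y : Set V)
    (ω : V → V → V → ZMod 2) (M : LMap V D a) (R : List D) (w : List V) (e : ZMod 2) (n : ℕ) :
    Prop :=
  ∃ (D' : Type) (_ : Fintype D') (M' : LMap V D' a) (R' : List D'),
    M'.HasWalk R' w ∧ M'.Planar ∧ M'.AdjM G ∧ M.Rel R M' R' n ∧
    (M.Zero → M'.Zero ∧ ((∀ d, M.f d ∈ Y) → ∀ d, M'.f d ∈ Y) ∧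
      M'.wsum {d | d ∈ R'} ω = M.wsum {d | d ∈ R} ω + e)

/-- insertion of a backtrack (ADDH) -/
def StepIStatement : Prop :=
  ∀ (V D : Type) [Fintype D] (X : Cx V) (a : Equiv.Perm V), FreeAut X a → ∀ (M : LMap V D a)
    (R : List D) (Y : Set V) (ω : V → V → V → ZMod 2) (u v : List V) (x y : V), M.Planar →
    M.AdjM X.G → X.G.Adj x y → y ∈ Y → M.HasWalk R (u ++ x :: v) →
    StepConcl X.G Y ω M R (u ++ x :: y :: x :: v) 0 0

/-- removal of a backtrack (ZIP) -/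
def StepDStatement : Prop :=
  ∀ (V D : Type) [Fintype D] (X : Cx V) (a : Equiv.Perm V), FreeAut X a → ∀ (M : LMap V D a)
    (R : List D) (Y : Set V) (ω : V → V → V → ZMod 2) (u v : List V) (x y : V), M.Planar →
    M.AdjM X.G → 2 ≤ (u ++ x :: v).length → M.HasWalk R (u ++ x :: y :: x :: v) →
    StepConcl X.G Y ω M R (u ++ x :: v) 0 0

/-- cutting off a triangle (ADDE) -/
def StepCStatement : Prop :=
  ∀ (V D : Type) [Fintype D] (X : Cx V) (a : Equiv.Perm V), FreeAut X a → ∀ (M : LMap V D a)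
    (R : List D) (Y : Set V) (ω : V → V → V → ZMod 2) (u v : List V) (x y z : V), Cocyc X.G Y ω →
    M.Planar → M.AdjM X.G → X.G.Adj x z → 3 ≤ (u ++ x :: z :: v).length →
    M.HasWalk R (u ++ x :: y :: z :: v) →
    StepConcl X.G Y ω M R (u ++ x :: z :: v) (ω x y z) 1

/-- closing a digon -/
def CloseStatement : Prop :=
  ∀ (V D : Type) [Fintype D] (X : Cx V) (a : Equiv.Perm V), FreeAut X a → ∀ (M : LMap V D a)
    (R : List D) (Y : Set V) (ω : V → V → V → ZMod 2) (x y : V), M.Planar →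
    M.AdjM X.G → M.HasWalk R [x, y, x] →
    ∃ (D' : Type) (_ : Fintype D') (M' : LMap V D' a), M'.Planar ∧ M'.AdjM X.G ∧ M.Rel R M' [] 0 ∧
    (M.Zero → M'.Zero ∧ ((∀ d, M.f d ∈ Y) → ∀ d, M'.f d ∈ Y) ∧
      M'.wsum ∅ ω = M.wsum {d | d ∈ R} ω)

/-- rotation of the base point -/
def RotStatement : Prop :=
  ∀ (V D : Type) [Fintype D] (X : Cx V) (a : Equiv.Perm V), FreeAut X a → ∀ (M : LMap V D a)
    (R : List D) (x y : V) (l : List V) (s : ℤ), M.HasWalk R (x :: y :: l) →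
    (x :: y :: l).getLast? = some ((a ^ s) x) →
    M.HasWalk (R.rotate 1) (y :: (l ++ [(a ^ s) y])) ∧ M.hol R = s ∧ (M.Zero → s = 0)

/-- transitivity of `Rel` (with the other data) -/
def RelTransStatement : Prop :=
  ∀ (V D D' D'' : Type) [Fintype D] [Fintype D'] [Fintype D''] (a : Equiv.Perm V)
    (M : LMap V D a) (M' : LMap V D' a) (M'' : LMap V D'' a) (R : List D) (R' : List D')
    (R'' : List D'') (n n' : ℕ), (R = [] ∨ M.IsFace R) → (R' = [] ∨ M'.IsFace R') →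
    M.Rel R M' R' n → M'.Rel R' M'' R'' n' → M.Rel R M'' R'' (n + n')

/-- one elementary homotopy on a face -/
def StepStatement : Prop :=
  ∀ (V D : Type) [Fintype D] (X : Cx V) (a : Equiv.Perm V), FreeAut X a → ∀ (M : LMap V D a)
    (R : List D) (Y : Set V) (ω : V → V → V → ZMod 2) (w w' : List V) (e : ZMod 2),
    Cocyc X.G Y ω → M.Planar → M.AdjM X.G → M.HasWalk R w → Stp X.G Y ω w w' e →
    3 ≤ w'.length → StepConcl X.G Y ω M R w' e (nTri w w')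

/-- Lemma 3.1 -/
def FillStatement : Prop :=
  ∀ (V D : Type) [Fintype D] (X : Cx V) (a : Equiv.Perm V), FreeAut X a → ∀ (M : LMap V D a)
    (R : List D) (Y : Set V) (ω : V → V → V → ZMod 2) (w : List V) (e : ZMod 2) (n : ℕ),
    Cocyc X.G Y ω → M.Planar → M.AdjM X.G → M.HasWalk R w → NulP X.G Y ω w e n →
    ∃ (D' : Type) (_ : Fintype D') (M' : LMap V D' a), M'.Planar ∧ M'.AdjM X.G ∧ M.Rel R M' [] n ∧
    (M.Zero → M'.Zero ∧ ((∀ d, M.f d ∈ Y) → ∀ d, M'.f d ∈ Y) ∧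
      M'.wsum ∅ ω = M.wsum {d | d ∈ R} ω + e)

/-! ### Section 4: reduction -/

/-- `SameV` = same orbit of `ι φ⁻¹`. -/
def VOrbStatement : Prop :=
  ∀ (D : Type) [Fintype D] (M : DMap D) (x y : D),
    M.SameV x y ↔ Equiv.Perm.SameCycle (M.φ.symm.trans M.ι) x y

/-- Deletion of a vertex.  `i :: o :: rest` is a face, `o` starts at the vertex, `s 0 = ι i`,
`s (j+1) = ι φ φ (s j)` (`j < k`), `s k = o`, the faces of `s j`, `j < k`, are triangles, no loops. -/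
def DelVStatement : Prop :=
  ∀ (V D : Type) [Fintype D] (a : Equiv.Perm V), (∀ (x : V) (n : ℤ), (a ^ n) x = x → n = 0) →
    ∀ (M : LMap V D a) (i o : D) (rest : List D) (k : ℕ) (s : ℕ → D),
    1 ≤ k → M.IsFace (i :: o :: rest) → s 0 = M.ι i → s k = o →
    (∀ j, j < k → M.Tri (s j) ∧ s (j + 1) = M.ι (M.φ (M.φ (s j))) ∧ s j ∉ i :: o :: rest) →
    (∀ j j', j ≤ k → j' ≤ k → s j = s j' → j = j') →
    (∀ j j', j ≤ k → j' ≤ k → s j ≠ M.ι (s j')) → (∀ j j', j < k → j' ≤ k → M.φ (s j) ≠ s j') →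
    (∀ j j', j ≤ k → j' < k → M.φ (s j') ≠ M.ι (s j)) →
    ∃ (D' : Type) (_ : Fintype D') (M' : LMap V D' a) (q : D' → D) (R' : List D'),
      Function.Injective q ∧
      (∀ x, (∃ x', q x' = x) ↔ ∀ j, j ≤ k → x ≠ s j ∧ x ≠ M.ι (s j)) ∧
      M'.IsFace R' ∧ (R'.map q = (List.range k).map (fun j => M.φ (s j)) ++ rest) ∧
      M'.hol R' = M.hol (i :: o :: rest) ∧
      (∀ x, x ∉ R' → q (M'.φ x) = M.φ (q x) ∧ M'.h x = M.h (q x)) ∧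
      (∀ x, q (M'.ι x) = M.ι (q x) ∧ M'.f x = M.f (q x) ∧ M'.γ x = M.γ (q x)) ∧
      (∀ x y, M'.SameV x y ↔ M.SameV (q x) (q y)) ∧ (M.Planar → M'.Planar) ∧
      (M.Zero → M'.Zero)

/-- The star of an interior vertex: spokes `s j` (period `k`), lifted neighbours `u j`. -/
def StarStatement : Prop :=
  ∀ (V D : Type) [Fintype D] (X : Cx V) (a : Equiv.Perm V), X.IsMetric → FreeAut X a →
    ∀ (M : LMap V D a) (B : Set D) (d₀ : D), M.AdjM X.G → M.Off B →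
    (∀ d, M.SameV d₀ d → d ∉ B) →
    ∃ (k : ℕ) (s : ℕ → D) (n : ℕ → ℤ) (u : ℕ → V), 2 ≤ k ∧ s 0 = d₀ ∧ n 0 = 0 ∧
      (∀ j, s (j + k) = s j) ∧ (∀ j, n (j + k) = n j) ∧ (∀ j, u j = (a ^ n j) (M.t (s j))) ∧
      (∀ j, s (j + 1) = M.ι (M.φ (M.φ (s j)))) ∧
      (∀ j j', j < k → j' < k → s j = s j' → j = j') ∧
      (∀ d, M.SameV d₀ d ↔ ∃ j, j < k ∧ s j = d) ∧
      (∀ j, (a ^ n j) (M.f (s j)) = M.f d₀) ∧
      (∀ j, u (j + 1) = (a ^ (n j + M.h (s j))) (M.t (M.φ (s j)))) ∧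
      (∀ j, X.G.Adj (M.f d₀) (u j)) ∧ (∀ j, X.G.Adj (u j) (u (j + 1))) ∧
      (∀ j, X.A (M.f d₀) (u j) (u (j + 1)) = M.th (M.lenM X) (s j)) ∧
      M.curv (M.lenM X) B d₀ =
        2 * Real.pi - ∑ j ∈ Finset.range k, X.A (M.f d₀) (u j) (u (j + 1))

/-- Deletion of a loopless interior vertex: the new face has the link walk. -/
def StarDelStatement : Prop :=
  ∀ (V D : Type) [Fintype D] (X : Cx V) (a : Equiv.Perm V), X.IsMetric → FreeAut X a →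
    ∀ (M : LMap V D a) (B : Set D) (d₀ : D) (ω : V → V → V → ZMod 2), M.Planar → M.AdjM X.G →
    M.Off B → (∀ d, M.SameV d₀ d → d ∉ B) → (∀ d, M.SameV d₀ d → ¬ M.SameV d (M.ι d)) →
    ∃ (k : ℕ) (u : ℕ → V), 2 ≤ k ∧ (∀ j, u (j + k) = u j) ∧
      (∀ j, X.G.Adj (M.f d₀) (u j)) ∧ (∀ j, X.G.Adj (u j) (u (j + 1))) ∧
      M.curv (M.lenM X) B d₀ =
        2 * Real.pi - ∑ j ∈ Finset.range k, X.A (M.f d₀) (u j) (u (j + 1)) ∧
      (M.Zero → ∀ j, ∃ d, u j = M.f d) ∧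
    ∃ (D' : Type) (_ : Fintype D') (M' : LMap V D' a) (R : List D') (j : B → D'),
      M'.HasWalk R ((List.range (k + 1)).map u) ∧ R.length = k ∧
      Fintype.card D' + 2 * k = Fintype.card D ∧
      Function.Injective j ∧ (∀ x, j x ∉ R) ∧ (∀ x y : B, M.φ x = y → M'.φ (j x) = j y) ∧
      (∀ x, M'.f (j x) = M.f x ∧ M'.h (j x) = M.h x) ∧ M'.Planar ∧ M'.AdjM X.G ∧
      M'.Off (Set.range j ∪ {d | d ∈ R}) ∧
      (M.Zero → M'.Zero ∧ (∀ d', ∃ d, M'.f d' = M.f d) ∧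
        ((∀ x y z, ω y x z = ω x y z ∧ ω x z y = ω x y z) →
          M'.wsum (Set.range j ∪ {d | d ∈ R}) ω +
            ∑ i ∈ Finset.range k, ω (M.f d₀) (u i) (u (i + 1)) = M.wsum B ω))

/-- Lemma 4.1 -/
def RedStatement : Prop :=
  ∀ (V D : Type) [Fintype D] (X : Cx V) (a : Equiv.Perm V), X.IsMetric → X.Large → FreeAut X a →
    ∀ (M : LMap V D a) (B : Set D) (Y : Set V) (ω : V → V → V → ZMod 2) (d₀ : D),
    Cocyc X.G Y ω → ((∀ x, x ∈ Y) ∨ (M.Zero ∧ ∀ d, M.f d ∈ Y)) →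
    M.Planar → M.AdjM X.G → M.Off B →
    (∀ d, M.SameV d₀ d → d ∉ B) → (∀ d, M.SameV d₀ d → ¬ M.SameV d (M.ι d)) →
    0 < M.curv (M.lenM X) B d₀ →
    ∃ (D' : Type) (_ : Fintype D') (M' : LMap V D' a) (j : B → D'),
      Function.Injective j ∧ (∀ x y : B, M.φ x = y → M'.φ (j x) = j y) ∧
      (∀ x, M'.f (j x) = M.f x ∧ M'.h (j x) = M.h x) ∧ M'.Planar ∧ M'.AdjM X.G ∧
      M'.Off (Set.range j) ∧ Fintype.card D' < Fintype.card D ∧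
      (M.Zero → M'.Zero ∧ ((∀ d, M.f d ∈ Y) → (∀ d, M'.f d ∈ Y) ∧
        (B = ∅ → M'.wsum ∅ ω = M.wsum ∅ ω)))

/-! ### Section 5: spheres -/

/-- Proposition 5.1 (a) -/
def SphCStatement : Prop :=
  ∀ (V D : Type) [Fintype D] (X : Cx V) (a : Equiv.Perm V), X.IsMetric → X.Large → FreeAut X a →
    ∀ (M : LMap V D a) (Y : Set V) (ω : V → V → V → ZMod 2), Cocyc X.G Y ω → M.Zero →
    (∀ d, M.f d ∈ Y) → M.Planar → M.AdjM X.G → M.Off ∅ → M.wsum ∅ ω = 0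

/-- Proposition 5.1 (b) -/
def SphStatement : Prop :=
  ∀ (V : Type) (X : Cx V) (a : Equiv.Perm V), X.IsMetric → X.Large → FreeAut X a →
    ∀ (Y : Set V) (ω : V → V → V → ZMod 2), Cocyc X.G Y ω → ∀ (x : V) (e : ZMod 2), x ∈ Y →
    Hom X.G Y ω [x] [x] e → e = 0

/-! ### Section 6: homotopy algebra and the tube lemma -/

/-- Simple connectivity in terms of `Hom`. -/
def ScStatement : Prop :=
  ∀ (V : Type) (G : SimpleGraph V), SimplyConnected G → ∀ (x : V) (l : List V)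
    (ω : V → V → V → ZMod 2), IsW G x x l → ∃ e, Hom G Set.univ ω l [x] e

/-- Algebra of homotopies. -/
def HomAStatement : Prop :=
  ∀ (V : Type) (G : SimpleGraph V) (Y : Set V) (ω : V → V → V → ZMod 2),
    (∀ l l' l'' e e', Hom G Y ω l l' e → Hom G Y ω l' l'' e' → Hom G Y ω l l'' (e + e')) ∧
    (∀ u v l l' e, Hom G Y ω l l' e → Hom G Y ω (u ++ l ++ v) (u ++ l' ++ v) e) ∧
    (∀ l l' e, (∀ x ∈ l, x ∈ Y) → Hom G Y ω l l' e → (∀ x ∈ l', x ∈ Y) ∧ Hom G Y ω l' l e) ∧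
    (∀ l l' e (ω' : V → V → V → ZMod 2), Hom G Y ω l l' e → ∃ e', Hom G Y ω' l l' e') ∧
    (∀ l l' e (Y' : Set V), Y ⊆ Y' → Hom G Y ω l l' e → Hom G Y' ω l l' e) ∧
    (∀ l l' e x y, Hom G Y ω l l' e → IsW G x y l → IsW G x y l') ∧
    (∀ l l' e, (∀ x y z, ω y x z = ω x y z ∧ ω x z y = ω x y z) → Hom G Y ω l l' e →
      Hom G Y ω l.reverse l'.reverse e) ∧
    (∀ l l' e, Hom G Y ω l l' e → ∃ N : Finset V, (∀ x ∈ N, x ∈ Y ∨ x ∈ l) ∧ (∀ x ∈ l, x ∈ N) ∧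
      Hom G (N : Set V) ω l l' e) ∧
    (∀ l x y, IsW G x y l → (∀ z ∈ l, z ∈ Y) → Hom G Y ω (cat l l.reverse) [x] 0) ∧
    (∀ (b : Equiv.Perm V), (∀ x y, G.Adj (b x) (b y) ↔ G.Adj x y) → ∀ l l' e,
      Hom G Y ω l l' e → Hom G (b '' Y) (fun x y z => ω (b.symm x) (b.symm y) (b.symm z))
        (l.map b) (l'.map b) e)

/-- Algebra of closed walks null-homotopic in `S`: cyclic composition of squares. -/
def HomBStatement : Prop :=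
  ∀ (V : Type) (G : SimpleGraph V) (a : Equiv.Perm V), (∀ x y, G.Adj (a x) (a y) ↔ G.Adj x y) →
    ∀ (S : Set V) (x y z : V) (π π' s s' s'' : List V), IsW G x y π → IsW G y z π' →
    IsW G x (a x) s → IsW G y (a y) s' → IsW G z (a z) s'' →
    (Nul G S (sq a π s s') → Nul G S (sq a π' s' s'') → Nul G S (sq a (cat π π') s s'')) ∧
    (Nul G S (sq a π s s') → Nul G S (sq a π.reverse s' s)) ∧
    ((∀ v ∈ s, v ∈ S ∧ a v ∈ S) → Nul G S (sq a s s (s.map a)))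

/-- sum over the edges of a walk -/
def sumE {V : Type} (η : V → V → ZMod 2) : List V → ZMod 2
  | x :: y :: l => η x y + sumE η (y :: l)
  | _ => 0

def TubeWStatement : Prop :=
  ∀ (V : Type) (G : SimpleGraph V) (L : Set V) (η : V → V → ZMod 2) (ω : V → V → V → ZMod 2),
    (∀ x y, η x y = η y x) →
    (∀ x y z, x ∈ L → y ∈ L → z ∈ L → G.Adj x y → G.Adj y z → G.Adj x z →
      ω x y z = η x y + η y z + η x z) →
    ∀ l l' e, (∀ v ∈ l, v ∈ L) → Hom G L ω l l' e → e = sumE η l + sumE η l'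

/-- the label: 2 on `L₂`, 0 on the rest of `L₀`, 1 elsewhere -/
noncomputable def lam {V : Type} (L₀ L₂ : Set V) (x : V) : ℕ :=
  if x ∈ L₂ then 2 else if x ∈ L₀ then 0 else 1

noncomputable def theta {V : Type} (L₀ L₁ L₂ : Set V) (x y : V) : ZMod 2 :=
  if (x ∈ L₀ ∪ L₁ ∪ L₂ ∧ y ∈ L₀ ∪ L₁ ∪ L₂) ∧
    ((lam L₀ L₂ x = 0 ∧ lam L₀ L₂ y = 1) ∨ (lam L₀ L₂ x = 1 ∧ lam L₀ L₂ y = 0)) then 1 else 0

def NoTriple {V : Type} (G : SimpleGraph V) (L₀ L₁ L₂ : Set V) : Prop :=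
  ¬ ∃ u ∈ L₀, ∃ v ∈ L₁, ∃ w ∈ L₂, Nr G u v ∧ Nr G v w ∧ Nr G u w

def TubePStatement : Prop :=
  ∀ (V : Type) (G : SimpleGraph V) (L₀ L₁ L₂ : Set V), NoTriple G L₀ L₁ L₂ →
    (∀ x y, theta L₀ L₁ L₂ x y = theta L₀ L₁ L₂ y x) ∧
    (∀ x y z, x ∈ L₀ ∪ L₁ ∪ L₂ → y ∈ L₀ ∪ L₁ ∪ L₂ → z ∈ L₀ ∪ L₁ ∪ L₂ → G.Adj x y → G.Adj y z →
      G.Adj x z → theta L₀ L₁ L₂ x y + theta L₀ L₁ L₂ y z + theta L₀ L₁ L₂ x z = 0) ∧
    (∀ (y₀ y₁ y₂ : V) (π₀ π₁ π₂ : List V), IsW G y₀ y₁ π₀ → IsW G y₁ y₂ π₁ → IsW G y₂ y₀ π₂ →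
      (∀ v ∈ π₀, v ∈ L₀) → (∀ v ∈ π₁, v ∈ L₁) → (∀ v ∈ π₂, v ∈ L₂) →
      sumE (theta L₀ L₁ L₂) (cat (cat π₀ π₁) π₂) = 1)

/-- heights on a set with finitely many `T`-orbits -/
def HtStatement : Prop :=
  ∀ (V : Type) (X : Cx V) (a : Equiv.Perm V), FreeAut X a → (∀ x, {y | X.G.Adj x y}.Finite) →
    ∀ S : Set V, S.Finite → ∃ (ht : V → ℤ) (H : ℤ), 0 ≤ H ∧
      (∀ x, (∃ n : ℤ, (a ^ n) x ∈ S) → ht (a x) = ht x + 1) ∧
      (∀ x y, (∃ n : ℤ, (a ^ n) x ∈ S) → (∃ n : ℤ, (a ^ n) y ∈ S) → Nr X.G x y →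
        |ht x - ht y| ≤ H)

/-- Proposition 6.1, the tube lemma -/
def TubeStatement : Prop :=
  ∀ (V : Type) (X : Cx V) (a : Equiv.Perm V), X.IsMS → FreeAut X a →
    (∀ x, {y | X.G.Adj x y}.Finite) → ∀ (S₀ S₁ S₂ : Set V), S₀.Finite → S₁.Finite → S₂.Finite →
    ∀ (y₀ y₁ y₂ : V) (π₀ π₁ π₂ s₀ s₁ s₂ : List V), IsW X.G y₀ y₁ π₀ → IsW X.G y₁ y₂ π₁ →
    IsW X.G y₂ y₀ π₂ → IsW X.G y₀ (a y₀) s₀ → IsW X.G y₁ (a y₁) s₁ → IsW X.G y₂ (a y₂) s₂ →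
    Nul X.G S₀ (sq a π₀ s₀ s₁) → Nul X.G S₁ (sq a π₁ s₁ s₂) → Nul X.G S₂ (sq a π₂ s₂ s₀) →
    ∃ u v w, (∃ n : ℤ, (a ^ n) u ∈ S₀) ∧ (∃ n : ℤ, (a ^ n) v ∈ S₁) ∧ (∃ n : ℤ, (a ^ n) w ∈ S₂) ∧
      Nr X.G u v ∧ Nr X.G v w ∧ Nr X.G u w

/-! ### Section 7: `Z^2` subgroups -/

/-- properness -/
def ProperStatement : Prop :=
  ∀ (V : Type) (X : Cx V) (Γ : Type) [Group Γ] [MulAction Γ V], X.IsGeom Γ →
    (∀ S S' : Set V, S.Finite → S'.Finite →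
      {g : Γ | ∃ x ∈ S, ∃ y ∈ S', Nr X.G (g • x) y}.Finite) ∧
    (∀ g : Γ, (∀ n : ℤ, g ^ n = 1 → n = 0) → FreeAut X (MulAction.toPerm g))

/-- the set `A S`, `A = {a^i b^j}` -/
def orb2 {V Γ : Type} [Group Γ] [MulAction Γ V] (a b : Γ) (S : Set V) : Set V :=
  {v | ∃ (i j : ℤ), ∃ x ∈ S, v = (a ^ i * b ^ j) • x}

/-- grid homotopies -/
def GridStatement : Prop :=
  ∀ (V : Type) (X : Cx V) (Γ : Type) [Group Γ] [MulAction Γ V], X.IsMS → X.IsGeom Γ →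
    ∀ (a b : Γ) (x₀ : V), a * b = b * a →
    ∃ (S : Set V) (w : ℤ → ℤ → List V), S.Finite ∧ x₀ ∈ S ∧
      (∀ i j, IsW X.G x₀ ((a ^ i * b ^ j) • x₀) (w i j)) ∧
      (∀ i j, ∀ v ∈ w i j, v ∈ orb2 a b S) ∧
      (∀ i j i' j', Nul X.G (orb2 a b S)
        (sq (fun v => (a ^ i' * b ^ j') • v) (w i j) (w i' j')
          ((w i' j').map (fun v => (a ^ i * b ^ j) • v))))

/-- Theorem 7.1 -/
def CommStatement : Prop :=
  ∀ (V : Type) (X : Cx V) (Γ : Type) [Group Γ] [MulAction Γ V], X.IsMS → X.IsGeom Γ →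
    ∀ (a b : Γ), a * b = b * a → (∀ i j : ℤ, a ^ i * b ^ j = 1 → i = 0 ∧ j = 0) →
    ∃ F : Finset Γ, ∀ g : Γ,
      (∃ m : ℕ, 1 ≤ m ∧ g⁻¹ * a ^ m * g ∈ Subgroup.closure {a, b} ∧
        g⁻¹ * b ^ m * g ∈ Subgroup.closure {a, b}) →
      ∃ f ∈ F, ∃ s ∈ Subgroup.closure {a, b}, ∃ t ∈ Subgroup.closure {a, b}, g = s * f * t

/-- Theorem 1: commensurators (and so normalizers) of `Z^2`-subgroups. -/
def Thm1Statement : Prop :=
  ∀ (Γ : Type) [Group Γ], IsMSGroup Γ → ∀ (a b : Γ), a * b = b * a →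
    (∀ i j : ℤ, a ^ i * b ^ j = 1 → i = 0 ∧ j = 0) → ∀ N : Subgroup Γ,
    Subgroup.closure {a, b} ≤ N →
    (∀ g ∈ N, ∃ m : ℕ, 1 ≤ m ∧ g⁻¹ * a ^ m * g ∈ Subgroup.closure {a, b} ∧
        g⁻¹ * b ^ m * g ∈ Subgroup.closure {a, b}) →
    (Subgroup.closure {a, b}).relIndex N ≠ 0

end MSG
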