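import Pool.Agent.Lib.MP_acafa7_al.MS.Base

/-! Combinatorial maps (darts), planarity = H^1(Z/2) = 0, labels in a complex with an automorphism.
Paper.md section 2. -/

namespace MSG

open Classical

/-- A map: faces are the orbits of `φ`, edges the pairs `{d, ι d}`. -/
structure DMap (D : Type) where
  φ : Equiv.Perm D
  ι : Equiv.Perm D
  ιι : ∀ d, ι (ι d) = d
  ne : ∀ d, ι d ≠ d

namespace DMap

variable {D : Type} (M : DMap D)

/-- Planarity: the first cohomology with coefficients `Z/2` vanishes. -/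
def Planar : Prop :=
  ∀ k : D → ZMod 2, (∀ d, k (M.φ (M.ι d)) + k (M.ι d) = k (M.φ d) + k d) →
    ∃ h : D → ZMod 2, (∀ d, h (M.φ d) = h (M.ι d)) ∧ (∀ d, k (M.φ d) + h (M.φ d) = k d + h d)

/-- Two darts have the same source. -/
def SameV (a b : D) : Prop := ∀ h : D → Prop, (∀ d, h (M.φ d) ↔ h (M.ι d)) → (h a ↔ h b)

theorem sameV_refl (a : D) : M.SameV a a := fun _ _ => Iff.rfl
theorem sameV_symm {a b : D} (h : M.SameV a b) : M.SameV b a := fun k hk => (h k hk).symm
theorem sameV_trans {a b c : D} (h : M.SameV a b) (h' : M.SameV b c) : M.SameV a c :=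
  fun k hk => (h k hk).trans (h' k hk)
theorem sameV_step (d : D) : M.SameV (M.φ d) (M.ι d) := fun _ hk => hk d

/-- vertices = classes of `SameV`, faces = orbits of `φ`. -/
def vSet : Setoid D := ⟨M.SameV, ⟨M.sameV_refl, M.sameV_symm, M.sameV_trans⟩⟩

noncomputable def nV : ℕ := Nat.card (Quotient M.vSet)
noncomputable def nF : ℕ := Nat.card (Quotient (Equiv.Perm.SameCycle.setoid M.φ))

/-- The list `l` runs once through an orbit of `φ`. -/
def IsFace (l : List D) : Prop := l ≠ [] ∧ l.Nodup ∧ l.map M.φ = l.rotate 1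

/-- `d` lies in a face of length three. -/
def Tri3 (d : D) : Prop := M.φ (M.φ (M.φ d)) = d ∧ M.φ d ≠ d

/-- Corner angle at the source of `d`, in the triangle of `d` (edge lengths `ℓ`). -/
noncomputable def th (ℓ : D → ℝ) (d : D) : ℝ := ang (ℓ d) (ℓ (M.φ (M.φ d))) (ℓ (M.φ d))

/-- `B`-corners have weight `π`, the other ones their angle. -/
noncomputable def wt (ℓ : D → ℝ) (B : Set D) (d : D) : ℝ := if d ∈ B then Real.pi else M.th ℓ d

/-- Curvature of the vertex of `d₀`. -/
noncomputable def curv [Fintype D] (ℓ : D → ℝ) (B : Set D) (d₀ : D) : ℝ :=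
  2 * Real.pi - ∑ d : D, if M.SameV d₀ d then M.wt ℓ B d else 0

/-- degree of the vertex of `d₀` -/
noncomputable def deg (d₀ : D) : ℕ := Nat.card {d // M.SameV d₀ d}

/-- `B` is a union of faces, outside `B` all faces are triangles. -/
def Off3 (B : Set D) : Prop := (∀ d ∈ B, M.φ d ∈ B) ∧ ∀ d, d ∉ B → M.Tri3 d

/-- Lengths: positive, symmetric, strict triangle inequalities outside `B`. -/
def LenOK (ℓ : D → ℝ) (B : Set D) : Prop :=
  (∀ d, 0 < ℓ d) ∧ (∀ d, ℓ (M.ι d) = ℓ d) ∧ ∀ d, d ∉ B → ℓ (M.φ d) < ℓ d + ℓ (M.φ (M.φ d))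

end DMap

/-- Labelled map: `f d` = label of the source of `d` in the chart of `d`; the chart of `ι d` (`φ d`)
is shifted by `γ d` (`h d`) with respect to the chart of `d`. -/
structure LMap (V D : Type) (a : Equiv.Perm V) extends DMap D where
  f : D → V
  γ : D → ℤ
  h : D → ℤ
  γι : ∀ d, γ (ι d) = - γ d
  tgt : ∀ d, (a ^ γ d) (f (ι d)) = (a ^ h d) (f (φ d))

namespace LMap

variable {V D D' : Type} {a : Equiv.Perm V} (M : LMap V D a)

/-- label of the target of `d` in the chart of `d` -/
def t (d : D) : V := (a ^ M.γ d) (M.f (M.ι d))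

/-- triangle dart, with trivial holonomy -/
def Tri (d : D) : Prop := M.Tri3 d ∧ M.h d + M.h (M.φ d) + M.h (M.φ (M.φ d)) = 0

/-- `B` is a union of faces, outside `B` all darts are triangle darts -/
def Off (B : Set D) : Prop := (∀ d ∈ B, M.φ d ∈ B) ∧ ∀ d, d ∉ B → M.Tri d

def Zero : Prop := ∀ d, M.γ d = 0 ∧ M.h d = 0

def AdjM (G : SimpleGraph V) : Prop := ∀ d, G.Adj (M.f d) (M.t d)

/-- lifted walk along a list of darts, starting in the chart shifted by `s` (without first vertex) -/
def wkA : ℤ → List D → List V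
  | _, [] => []
  | s, r :: l => (a ^ s) (M.t r) :: wkA (s + M.h r) l

/-- lifted walk along a list of darts -/
def wk : List D → List V
  | [] => []
  | r :: l => M.f r :: M.wkA 0 (r :: l)

/-- holonomy along a list of darts -/
def hol (l : List D) : ℤ := (l.map M.h).sum

/-- `R` is a face with lifted walk `w` up to a translation by a power of `a`. -/
def HasWalk (R : List D) (w : List V) : Prop :=
  M.IsFace R ∧ ∃ c : ℤ, M.wk R = w.map (a ^ c) ∧ (M.Zero → c = 0)

/-- lengths of the edges given by a complex -/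
noncomputable def lenM (X : Cx V) (d : D) : ℝ := X.len (M.f d) (M.t d)

/-- sum of a function of triangles over the triangles outside `B` (each one is counted 3 times) -/
noncomputable def wsum [Fintype D] (B : Set D) (ω : V → V → V → ZMod 2) : ZMod 2 :=
  ∑ d : D, if d ∈ B then 0 else ω (M.f d) (M.f (M.φ d)) (M.f (M.φ (M.φ d)))

/-- `M'` is obtained from `M` by replacing the face `R` by the face `R'` (nothing if `R' = []`) and
`n` triangles; all other faces are kept. -/
def Rel [Fintype D] [Fintype D'] (R : List D) (M' : LMap V D' a) (R' : List D') (n : ℕ) : Prop :=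
  ∃ j : {d : D // d ∉ R} → D', Function.Injective j ∧ (∀ x, j x ∉ R') ∧
    (∀ x y, M.φ x.1 = y.1 → M'.φ (j x) = j y) ∧
    (∀ x, M'.f (j x) = M.f x.1 ∧ M'.h (j x) = M.h x.1) ∧
    (∀ d', d' ∉ R' → (∀ x, j x ≠ d') → M'.Tri d') ∧
    Fintype.card D' + R.length = Fintype.card D + R'.length + 3 * n

end LMap

/-- `a` is an automorphism of the metric complex `X` all of whose powers act freely. -/
structure FreeAut {V : Type} (X : Cx V) (a : Equiv.Perm V) : Prop where
  adj : ∀ x y, X.G.Adj (a x) (a y) ↔ X.G.Adj x y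
  len : ∀ x y, X.len (a x) (a y) = X.len x y
  free : ∀ (x : V) (n : ℤ), (a ^ n) x = x → n = 0

/-- Elementary homotopies inside `Y` with weights. -/
inductive Stp {V : Type} (G : SimpleGraph V) (Y : Set V) (ω : V → V → V → ZMod 2) :
    List V → List V → ZMod 2 → Prop
  | ins (u v : List V) (x y : V) : G.Adj x y → y ∈ Y →
      Stp G Y ω (u ++ x :: v) (u ++ x :: y :: x :: v) 0
  | del (u v : List V) (x y : V) : G.Adj x y →
      Stp G Y ω (u ++ x :: y :: x :: v) (u ++ x :: v) 0
  | exp (u v : List V) (x y z : V) : G.Adj x y → G.Adj y z → G.Adj x z → y ∈ Y →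
      Stp G Y ω (u ++ x :: z :: v) (u ++ x :: y :: z :: v) (ω x y z)
  | con (u v : List V) (x y z : V) : G.Adj x y → G.Adj y z → G.Adj x z →
      Stp G Y ω (u ++ x :: y :: z :: v) (u ++ x :: z :: v) (ω x y z)

/-- Sequences of elementary homotopies inside `Y` with total weight. -/
inductive Hom {V : Type} (G : SimpleGraph V) (Y : Set V) (ω : V → V → V → ZMod 2) :
    List V → List V → ZMod 2 → Prop
  | refl (l : List V) : Hom G Y ω l l 0
  | step {l l' l'' : List V} {e e' : ZMod 2} : Stp G Y ω l l' e → Hom G Y ω l' l'' e' →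
      Hom G Y ω l l'' (e + e')

/-- number of triangles of an elementary homotopy (0 for backtracks, 1 for triangles) -/
def nTri {V : Type} (w w' : List V) : ℕ :=
  if w.length = w'.length + 2 ∨ w'.length = w.length + 2 then 0 else 1

/-- Fillings of closed walks `[x, .., x]` (lists of length at least 3) inside `Y`, with weight and
number of triangles; one can rotate the base point. -/
inductive NulP {V : Type} (G : SimpleGraph V) (Y : Set V) (ω : V → V → V → ZMod 2) :
    List V → ZMod 2 → ℕ → Prop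
  | base (x y : V) : G.Adj x y → NulP G Y ω [x, y, x] 0 0
  | rot (x y : V) (l : List V) (e : ZMod 2) (n : ℕ) : (x :: y :: l).getLast? = some x →
      NulP G Y ω (y :: (l ++ [y])) e n → NulP G Y ω (x :: y :: l) e n
  | stp (w w' : List V) (e e' : ZMod 2) (n : ℕ) : Stp G Y ω w w' e → 3 ≤ w'.length →
      NulP G Y ω w' e' n → NulP G Y ω w (e + e') (n + nTri w w')

/-- symmetric functions of triangles with zero sum over the faces of the 4-cliques of `Y` -/
structure Cocyc {V : Type} (G : SimpleGraph V) (Y : Set V) (ω : V → V → V → ZMod 2) : Prop where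
  s12 : ∀ x y z, ω y x z = ω x y z
  s23 : ∀ x y z, ω x z y = ω x y z
  coc : ∀ x y z w, x ∈ Y → y ∈ Y → z ∈ Y → w ∈ Y → G.Adj x y → G.Adj x z → G.Adj x w →
    G.Adj y z → G.Adj y w → G.Adj z w → ω x y z + ω x y w + ω x z w + ω y z w = 0

/-- equal or adjacent -/
def Nr {V : Type} (G : SimpleGraph V) (x y : V) : Prop := x = y ∨ G.Adj x y

/-- concatenation of walks (last vertex of the first = first vertex of the second) -/
def cat {V : Type} (l m : List V) : List V := l ++ m.tail

/-- the closed walk `π · s' · (a π)⁻¹ · s⁻¹` -/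
def sq {V : Type} (a : V → V) (π s s' : List V) : List V :=
  cat (cat (cat π s') (π.map a).reverse) s.reverse

/-- the closed walk `l` is null-homotopic inside `S` -/
def Nul {V : Type} (G : SimpleGraph V) (S : Set V) (l : List V) : Prop :=
  (∀ v ∈ l, v ∈ S) ∧ ∃ x, IsW G x x l ∧ Hom G S (fun _ _ _ => 0) l [x] 0

end MSG
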